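import Mathlib

set_option autoImplicit false

/-!
# Distribution of the queries into bins
-/

namespace Pool.Agent.H701.TJ

open Finset

/-- a set of `h` queries in `D` of one colour, which is contained in a row or in a column -/
def IsBlock {k s : ℕ} (D : Finset (Fin k × Fin k)) (c : Fin k × Fin k → Fin s) (h : ℕ)
    (B : Finset (Fin k × Fin k)) : Prop :=
  B ⊆ D ∧ B.card = h ∧ (∀ d ∈ B, ∀ d' ∈ B, c d = c d') ∧
    ((∀ d ∈ B, ∀ d' ∈ B, d.1 = d'.1) ∨ (∀ d ∈ B, ∀ d' ∈ B, d.2 = d'.2))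

theorem exists_blocks {k s : ℕ} (D : Finset (Fin k × Fin k)) (c : Fin k × Fin k → Fin s) (h : ℕ)
    (hh : 1 ≤ h) :
    ∃ C : Finset (Finset (Fin k × Fin k)), (∀ B ∈ C, IsBlock D c h B) ∧
      (∀ B ∈ C, ∀ B' ∈ C, B ≠ B' → Disjoint B B') ∧ C.card * h ≤ D.card ∧
      ∀ B, IsBlock D c h B → ∃ B' ∈ C, ¬ Disjoint B B' := by
  classical
  let S : Finset (Finset (Finset (Fin k × Fin k))) := univ.filter fun C =>
    (∀ B ∈ C, IsBlock D c h B) ∧ (∀ B ∈ C, ∀ B' ∈ C, B ≠ B' → Disjoint B B')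
  have hne : S.Nonempty := ⟨∅, by simp [S]⟩
  obtain ⟨C, hC, hmax⟩ := S.exists_max_image Finset.card hne
  obtain ⟨h1, h2⟩ := (mem_filter.1 hC).2
  refine ⟨C, h1, h2, ?_, ?_⟩
  · have h3 : (C.biUnion id).card = ∑ B ∈ C, B.card :=
      card_biUnion fun B hB B' hB' hne => h2 B hB B' hB' hne
    have h4 : ∑ B ∈ C, B.card = C.card * h := by
      rw [sum_congr rfl fun B hB => (h1 B hB).2.1, sum_const, smul_eq_mul]
    rw [← h4, ← h3]
    refine card_le_card ?_
    intro d hd
    rw [mem_biUnion] at hd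
    obtain ⟨B, hB, hd⟩ := hd
    exact (h1 B hB).1 hd
  · intro B hB
    by_contra hno
    push Not at hno
    have hnot : B ∉ C := by
      intro hBC
      have := hno B hBC
      rw [disjoint_self] at this
      have h3 := hB.2.1
      rw [this] at h3
      simp at h3
      omega
    have hin : insert B C ∈ S := by
      refine mem_filter.2 ⟨mem_univ _, ?_, ?_⟩
      · intro B' hB'
        rcases mem_insert.1 hB' with rfl | hB'
        · exact hB
        · exact h1 B' hB'
      · intro B₁ hB₁ B₂ hB₂ hne₁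
        rcases mem_insert.1 hB₁ with e1 | e1
        · rcases mem_insert.1 hB₂ with e2 | e2
          · exact absurd (e1.trans e2.symm) hne₁
          · rw [e1]
            exact hno B₂ e2
        · rcases mem_insert.1 hB₂ with e2 | e2
          · rw [e2]
            exact (hno B₁ e1).symm
          · exact h2 B₁ e1 B₂ e2 hne₁
    have := hmax _ hin
    rw [card_insert_of_notMem hnot] at this
    omega

/-- **Bins.** -/
theorem binning {k s : ℕ} (D : Finset (Fin k × Fin k)) (c : Fin k × Fin k → Fin s)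
    (h g n₁ L : ℕ) (hh : 1 ≤ h) (hD : D.card ≤ g * n₁ * h) (hs : s ≤ g * L) :
    ∃ β : Fin k × Fin k → (Fin n₁ ⊕ Fin L) × Fin g,
      (∀ d ∈ D, ∀ d' ∈ D, β d = β d' → c d = c d') ∧
      (∀ i b, (D.filter fun d => d.1 = i ∧ β d = b).card ≤ h) ∧
      (∀ j b, (D.filter fun d => d.2 = j ∧ β d = b).card ≤ h) := by
  classical
  obtain ⟨C, hC1, hC2, hC3, hC4⟩ := exists_blocks D c h hh
  have hCc : C.card ≤ n₁ * g := by
    have h1 : C.card * h ≤ (n₁ * g) * h := by
      calc C.card * h ≤ D.card := hC3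
        _ ≤ g * n₁ * h := hD
        _ = n₁ * g * h := by ring
    exact Nat.le_of_mul_le_mul_right h1 (by omega)
  obtain ⟨e⟩ : Nonempty (C ↪ Fin n₁ × Fin g) := by
    apply Function.Embedding.nonempty_of_card_le
    rw [Fintype.card_coe, Fintype.card_prod, Fintype.card_fin, Fintype.card_fin]
    exact hCc
  obtain ⟨e₂⟩ : Nonempty (Fin s ↪ Fin L × Fin g) := by
    apply Function.Embedding.nonempty_of_card_le
    rw [Fintype.card_prod, Fintype.card_fin, Fintype.card_fin, Fintype.card_fin, mul_comm]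
    exact hs
  obtain ⟨β, hβ⟩ : ∃ β : Fin k × Fin k → (Fin n₁ ⊕ Fin L) × Fin g, β = fun d =>
    if H : ∃ B : C, d ∈ (B : Finset (Fin k × Fin k)) then (Sum.inl (e H.choose).1, (e H.choose).2)
    else (Sum.inr (e₂ (c d)).1, (e₂ (c d)).2) := ⟨_, rfl⟩
  have huniq : ∀ (B B' : C) (d : Fin k × Fin k), d ∈ (B : Finset (Fin k × Fin k)) →
      d ∈ (B' : Finset (Fin k × Fin k)) → B = B' := by
    intro B B' d h1 h2
    by_contra hne
    have h3 := hC2 B B.2 B' B'.2 (fun h => hne (Subtype.ext h))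
    exact (disjoint_left.1 h3 h1 h2)
  have hin : ∀ (B : C) (d : Fin k × Fin k), d ∈ (B : Finset (Fin k × Fin k)) →
      β d = (Sum.inl (e B).1, (e B).2) := by
    intro B d hd
    have H : ∃ B : C, d ∈ (B : Finset (Fin k × Fin k)) := ⟨B, hd⟩
    rw [hβ]
    simp only
    rw [dif_pos H, huniq H.choose B d H.choose_spec hd]
  have hout : ∀ (d : Fin k × Fin k), (¬ ∃ B : C, d ∈ (B : Finset (Fin k × Fin k))) →
      β d = (Sum.inr (e₂ (c d)).1, (e₂ (c d)).2) := by
    intro d hd
    rw [hβ]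
    simp only
    rw [dif_neg hd]
  -- the queries in a bin
  have hbin : ∀ (b : (Fin n₁ ⊕ Fin L) × Fin g), (∃ B : C, ∀ d, β d = b → d ∈ (B : Finset _)) ∨
      ∀ d, β d = b → (¬ ∃ B : C, d ∈ (B : Finset (Fin k × Fin k))) := by
    intro b
    by_cases h1 : ∃ (d : Fin k × Fin k) (B : C), β d = b ∧ d ∈ (B : Finset _)
    · left
      obtain ⟨d, B, h2, h3⟩ := h1
      refine ⟨B, fun d' h4 => ?_⟩
      rw [hin B d h3] at h2
      by_cases h5 : ∃ B : C, d' ∈ (B : Finset (Fin k × Fin k))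
      · obtain ⟨B', h6⟩ := h5
        rw [hin B' d' h6, ← h2] at h4
        have h7 : e B' = e B := by
          have h8 := congrArg Prod.fst h4
          have h9 := congrArg Prod.snd h4
          simp only [Sum.inl.injEq] at h8 h9
          exact Prod.ext h8 h9
        rw [e.injective h7] at h6
        exact h6
      · rw [hout d' h5, ← h2] at h4
        have h8 := congrArg Prod.fst h4
        simp at h8
    · right
      push Not at h1
      rintro d h2 ⟨B, h3⟩
      exact h1 d B h2 h3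
  have hcol : ∀ d d', (¬ ∃ B : C, d ∈ (B : Finset (Fin k × Fin k))) →
      (¬ ∃ B : C, d' ∈ (B : Finset (Fin k × Fin k))) → β d = β d' → c d = c d' := by
    intro d d' h1 h2 h3
    rw [hout d h1, hout d' h2] at h3
    have h8 := congrArg Prod.fst h3
    have h9 := congrArg Prod.snd h3
    simp only [Sum.inr.injEq] at h8 h9
    exact e₂.injective (Prod.ext h8 h9)
  have hcount : ∀ (P : Fin k × Fin k → Prop) [DecidablePred P] (b : (Fin n₁ ⊕ Fin L) × Fin g),
      (∀ B ⊆ D.filter P, B.card = h → (∀ d ∈ B, ∀ d' ∈ B, c d = c d') → IsBlock D c h B) →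
      (D.filter fun d => P d ∧ β d = b).card ≤ h := by
    intro P _ b hP
    rcases hbin b with ⟨B, hB⟩ | hno
    · rw [← (hC1 B B.2).2.1]
      refine card_le_card ?_
      intro d hd
      exact hB d (mem_filter.1 hd).2.2
    · by_contra hgt
      push Not at hgt
      obtain ⟨B, hB, hBc⟩ := exists_subset_card_eq hgt.le
      have h1 : B ⊆ D.filter P := by
        intro d hd
        have := mem_filter.1 (hB hd)
        exact mem_filter.2 ⟨this.1, this.2.1⟩
      have h2 : ∀ d ∈ B, ∀ d' ∈ B, c d = c d' := by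
        intro d hd d' hd'
        have h3 := (mem_filter.1 (hB hd)).2.2
        have h4 := (mem_filter.1 (hB hd')).2.2
        exact hcol d d' (hno d h3) (hno d' h4) (h3.trans h4.symm)
      obtain ⟨B', hB', hdis⟩ := hC4 B (hP B h1 hBc h2)
      rw [not_disjoint_iff] at hdis
      obtain ⟨d, hd, hd'⟩ := hdis
      exact hno d (mem_filter.1 (hB hd)).2.2 ⟨⟨B', hB'⟩, hd'⟩
  refine ⟨β, ?_, ?_, ?_⟩
  · intro d _ d' _ heq
    rcases hbin (β d') with ⟨B, hB⟩ | hno
    · exact (hC1 B B.2).2.2.1 d (hB d heq) d' (hB d' rfl)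
    · exact hcol d d' (hno d heq) (hno d' rfl) heq
  · intro i b
    refine hcount (fun d => d.1 = i) b ?_
    intro B hB hBc hmono
    refine ⟨fun d hd => (mem_filter.1 (hB hd)).1, hBc, hmono, Or.inl ?_⟩
    intro d hd d' hd'
    rw [(mem_filter.1 (hB hd)).2, (mem_filter.1 (hB hd')).2]
  · intro j b
    refine hcount (fun d => d.2 = j) b ?_
    intro B hB hBc hmono
    refine ⟨fun d hd => (mem_filter.1 (hB hd)).1, hBc, hmono, Or.inr ?_⟩
    intro d hd d' hd'
    rw [(mem_filter.1 (hB hd)).2, (mem_filter.1 (hB hd')).2]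

end Pool.Agent.H701.TJ
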