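import Pool.Agent.H701.TJ.Sim
import Pool.Agent.H701.TJ.Ub3
import Pool.Graph.R_seed8.Y502.OJ.Dp

set_option autoImplicit false

/-!
# The union bound
-/

namespace Pool.Agent.H701.TJ

open Finset
open Pool.Agent.Y516.OJ (Prot Fam Disj EE ind LeafStm HolStm nErr nInt wt Wt)
open Pool.Agent.Y502.OJ (EE_mono EE_one EE_add EE_mul EE_sum EE_notDisj card_eq_sum)

/-- the degrees are at most `Δ` -/
def DegN {k : ℕ} (D : Finset (Fin k × Fin k)) (Δ : ℕ) : Prop :=
  (∀ i, (D.filter fun d => d.1 = i).card ≤ Δ) ∧ (∀ j, (D.filter fun d => d.2 = j).card ≤ Δ)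

theorem nErr_congr {u k : ℕ} (D : Finset (Fin k × Fin k))
    (p p' : Fin k × Fin k → Prot (Fam u k) (Fam u k)) (h : ∀ d ∈ D, p d = p' d) (X Y : Fam u k) :
    nErr D p X Y = nErr D p' X Y := by
  classical
  unfold nErr
  congr 1
  refine filter_congr fun d hd => ?_
  rw [h d hd]

/-- The good event for queries which are selected by the first player. -/
theorem one_adv (hL : LeafStm) (hH : HolStm) {u k w b t q Δ m r l : ℕ} {α ρ : ℝ}
    (hα : 0 < α) (hα1 : α ≤ 1) (hq : 2 ≤ q) (h1 : (q : ℝ) * α * Δ ≤ 1 / 4)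
    (h2 : (q : ℝ) * α ≤ 1 / 4) (hρ1 : ρ ≤ 1)
    (hρ : Real.exp (-(α ^ 2 * u / 32)) ≤ ρ) (hl : k * k ≤ 2 ^ l)
    (D : Fam u k → Finset (Fin k × Fin k)) (H : Fam u k → Fin k × Fin k → List (Fin (2 ^ w)))
    (query : Fin k × Fin k → List (Fin (2 ^ w)) → Prot (Fam u k) (Fam u k))
    (hdep : ∀ d v, (query d v).depth ≤ b) :
    EE α (fun X Y => ind ((D X).card = m ∧ DegN (D X) Δ ∧ (∀ d ∈ D X, (H X d).length = t) ∧
      nErr (D X) (fun d => query d (H X d)) X Y ≤ r ∧ 2 * nInt (D X) X Y ≤ m)) ≤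
      2 ^ r * ((1 + ρ) / 2) ^ ((m : ℝ) / 2 - r) *
        ((2 : ℝ) ^ ((l + w * t + b) * m)) ^ (1 / ((q : ℝ) - 1)) := by
  classical
  have hq0 : (0 : ℝ) < q := by
    have : 0 < q := by omega
    exact_mod_cast this
  have hq1 : (0 : ℝ) < (q : ℝ) - 1 := by
    have : (2 : ℝ) ≤ q := by exact_mod_cast hq
    linarith
  have hρ0 : 0 ≤ ρ := (Real.exp_pos _).le.trans hρ
  obtain ⟨PP, hPP⟩ : ∃ PP : Finset (Finset (Fin k × Fin k)),
    PP = (powersetCard m univ).filter fun D₀ => DegN D₀ Δ := ⟨_, rfl⟩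
  have hPP' : ∀ D₀, D₀ ∈ PP ↔ D₀.card = m ∧ DegN D₀ Δ := by
    intro D₀
    rw [hPP, mem_filter, mem_powersetCard]
    exact ⟨fun h => ⟨h.1.2, h.2⟩, fun h => ⟨⟨subset_univ _, h.1⟩, h.2⟩⟩
  obtain ⟨p, hp⟩ : ∃ p : (Σ D₀ : PP, (↥(D₀ : Finset (Fin k × Fin k)) →
      List.Vector (Fin (2 ^ w)) t)) → Fin k × Fin k → Prot (Fam u k) (Fam u k), p = fun x d =>
    if hd : d ∈ (x.1 : Finset (Fin k × Fin k)) then query d (x.2 ⟨d, hd⟩).toList
    else Prot.out false := ⟨_, rfl⟩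
  obtain ⟨A, hA⟩ : ∃ A : (Σ D₀ : PP, (↥(D₀ : Finset (Fin k × Fin k)) →
      List.Vector (Fin (2 ^ w)) t)) → Fam u k → Bool, A = fun x X =>
    decide (D X = (x.1 : Finset (Fin k × Fin k)) ∧
      ∀ d : (x.1 : Finset (Fin k × Fin k)), H X d = (x.2 d).toList) := ⟨_, rfl⟩
  have hA' : ∀ x X, A x X = true ↔ (D X = (x.1 : Finset (Fin k × Fin k)) ∧
      ∀ d : (x.1 : Finset (Fin k × Fin k)), H X d = (x.2 d).toList) := by
    intro x X
    rw [hA]
    exact decide_eq_true_iff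
  have hpd : ∀ x d, (p x d).depth ≤ b := by
    intro x d
    rw [hp]
    simp only
    split_ifs with hd
    · exact hdep _ _
    · exact Nat.zero_le _
  -- the events `A x` are disjoint
  have huniq : ∀ X x x', A x X = true → A x' X = true → x = x' := by
    rintro X ⟨⟨D₀, h₀⟩, f⟩ ⟨⟨D₁, h₁⟩, f'⟩ hx hx'
    rw [hA'] at hx hx'
    obtain ⟨a1, a2⟩ := hx
    obtain ⟨a3, a4⟩ := hx'
    simp only at a1 a2 a3 a4
    subst a1
    subst a3
    congr 1
    funext d
    exact List.Vector.toList_injective ((a2 d).symm.trans (a4 d))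
  have hsum1 : ∀ X, ∑ x, ind (A x X = true) ≤ 1 := by
    intro X
    by_cases hex : ∃ x, A x X = true
    · obtain ⟨x, hx⟩ := hex
      rw [sum_eq_single x]
      · exact ind_le _
      · intro x' _ hne
        exact ind_false fun h => hne (huniq X x' x h hx)
      · intro h
        exact absurd (mem_univ _) h
    · push Not at hex
      rw [sum_eq_zero fun x _ => ind_false (hex x)]
      exact zero_le_one
  -- the pointwise bound
  have hpt : ∀ X Y, ind ((D X).card = m ∧ DegN (D X) Δ ∧ (∀ d ∈ D X, (H X d).length = t) ∧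
      nErr (D X) (fun d => query d (H X d)) X Y ≤ r ∧ 2 * nInt (D X) X Y ≤ m) ≤
      ∑ x, ind (A x X = true) * ind (nErr (x.1 : Finset (Fin k × Fin k)) (p x) X Y ≤ r ∧
        2 * nInt (x.1 : Finset (Fin k × Fin k)) X Y ≤ m) := by
    intro X Y
    have hnn : ∀ x ∈ (univ : Finset (Σ D₀ : PP, (↥(D₀ : Finset (Fin k × Fin k)) →
      List.Vector (Fin (2 ^ w)) t))), 0 ≤ ind (A x X = true) *
        ind (nErr (x.1 : Finset (Fin k × Fin k)) (p x) X Y ≤ r ∧
        2 * nInt (x.1 : Finset (Fin k × Fin k)) X Y ≤ m) := fun x _ =>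
      mul_nonneg (ind_nn _) (ind_nn _)
    by_cases hgood : (D X).card = m ∧ DegN (D X) Δ ∧ (∀ d ∈ D X, (H X d).length = t) ∧
      nErr (D X) (fun d => query d (H X d)) X Y ≤ r ∧ 2 * nInt (D X) X Y ≤ m
    · obtain ⟨g1, g2, g3, g4, g5⟩ := hgood
      obtain ⟨x, hx⟩ : ∃ x : (Σ D₀ : PP, (↥(D₀ : Finset (Fin k × Fin k)) →
        List.Vector (Fin (2 ^ w)) t)), x = ⟨⟨D X, (hPP' _).2 ⟨g1, g2⟩⟩,
          fun d => ⟨H X d, g3 d d.2⟩⟩ := ⟨_, rfl⟩
      refine le_trans ?_ (single_le_sum hnn (mem_univ x))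
      have e1 : A x X = true := by
        rw [hA', hx]
        exact ⟨rfl, fun d => rfl⟩
      have e2 : nErr (x.1 : Finset (Fin k × Fin k)) (p x) X Y ≤ r ∧
        2 * nInt (x.1 : Finset (Fin k × Fin k)) X Y ≤ m := by
        rw [hx]
        refine ⟨?_, g5⟩
        refine le_trans (le_of_eq ?_) g4
        refine nErr_congr _ _ _ (fun d hd => ?_) X Y
        rw [hp]
        simp only
        rw [dif_pos hd]
        rfl
      rw [ind_true e1, ind_true e2]
      exact (ind_le _).trans (by norm_num)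
    · rw [ind_false hgood]
      exact sum_nonneg hnn
  refine (EE_mono hα.le hα1 hpt).trans ?_
  rw [EE_sum]
  -- the bound for one event
  choose P hP0 hPs hPb using fun x : (Σ D₀ : PP, (↥(D₀ : Finset (Fin k × Fin k)) →
      List.Vector (Fin (2 ^ w)) t)) => ub3 hL u k m b r α ρ (1 - 1 / (q : ℝ))
    (x.1 : Finset (Fin k × Fin k)) (p x) (A x) hα hα1 ((hPP' _).1 x.1.2).1 (hpd x) hρ0 hρ1
    (by
      intro S hS F G
      have hdeg := ((hPP' _).1 x.1.2).2
      have e1 := corrB u k q Δ α (by omega) hα hα1 h1 h2 S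
        (fun i => (card_le_card (filter_subset_filter _ hS)).trans (hdeg.1 i))
        (fun i => (card_le_card (filter_subset_filter _ hS)).trans (hdeg.2 i)) F G
      refine e1.trans (mul_le_mul_of_nonneg_right ?_ (Real.rpow_nonneg ?_ _))
      · calc Real.exp (-(α ^ 2 * u * S.card / 32)) = Real.exp (-(α ^ 2 * u / 32)) ^ S.card := by
              rw [← Real.exp_nat_mul]
              congr 1
              ring
          _ ≤ ρ ^ S.card := pow_le_pow_left₀ (Real.exp_pos _).le hρ _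
      · exact Pool.Agent.Y85.OJ.EE_nonneg hα.le hα1 fun X Y => mul_nonneg (ind_nn _) (ind_nn _))
  obtain ⟨C0, hC0⟩ : ∃ C0 : ℝ, C0 = 2 ^ r * ((1 + ρ) / 2) ^ ((m : ℝ) / 2 - r) := ⟨_, rfl⟩
  have hC00 : 0 ≤ C0 := by
    rw [hC0]
    exact mul_nonneg (by positivity) (Real.rpow_nonneg (by linarith) _)
  rw [← hC0]
  have hθ : 1 - 1 / (q : ℝ) = 1 / (1 + 1 / ((q : ℝ) - 1)) := by
    field_simp
    ring
  have d1 : ∑ x, EE α (fun X Y => ind (A x X = true) *
      ind (nErr (x.1 : Finset (Fin k × Fin k)) (p x) X Y ≤ r ∧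
        2 * nInt (x.1 : Finset (Fin k × Fin k)) X Y ≤ m)) ≤
      C0 * ∑ x, ∑ R, P x R ^ (1 / (1 + 1 / ((q : ℝ) - 1))) := by
    rw [mul_sum]
    refine sum_le_sum fun x _ => ?_
    have := hPb x
    rw [hθ, ← hC0] at this
    exact this
  refine d1.trans (mul_le_mul_of_nonneg_left ?_ hC00)
  have d2 : ∑ x, ∑ R, P x R ≤ 1 := by
    refine (sum_le_sum fun x _ => hPs x).trans ?_
    rw [← EE_sum α univ fun x X _ => ind (A x X = true)]
    refine (EE_mono hα.le hα1 fun X _ => hsum1 X).trans (le_of_eq (EE_one α))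
  have d3 := hH (Σ x : (Σ D₀ : PP, (↥(D₀ : Finset (Fin k × Fin k)) →
      List.Vector (Fin (2 ^ w)) t)), (↥(x.1 : Finset (Fin k × Fin k)) → Fin (2 ^ b)))
    (fun z => P z.1 z.2) (1 / ((q : ℝ) - 1)) (by positivity) (fun z => hP0 _ _) (by
      rw [Fintype.sum_sigma]
      exact d2)
  rw [Fintype.sum_sigma] at d3
  refine d3.trans ?_
  refine Real.rpow_le_rpow (Nat.cast_nonneg _) ?_ (by positivity)
  have hcI : ∀ D₀ : PP, (D₀ : Finset (Fin k × Fin k)).card = m := fun D₀ => ((hPP' _).1 D₀.2).1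
  have e1 : Fintype.card (Σ x : (Σ D₀ : PP, (↥(D₀ : Finset (Fin k × Fin k)) →
      List.Vector (Fin (2 ^ w)) t)), (↥(x.1 : Finset (Fin k × Fin k)) → Fin (2 ^ b))) =
      PP.card * (((2 ^ w) ^ t) ^ m * (2 ^ b) ^ m) := by
    rw [Fintype.card_sigma]
    have f1 : ∀ x : (Σ D₀ : PP, (↥(D₀ : Finset (Fin k × Fin k)) →
      List.Vector (Fin (2 ^ w)) t)), Fintype.card (↥(x.1 : Finset (Fin k × Fin k)) → Fin (2 ^ b)) =
        (2 ^ b) ^ m := by
      intro x
      rw [Fintype.card_fun, Fintype.card_fin, Fintype.card_coe, hcI]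
    rw [sum_congr rfl fun x _ => f1 x, sum_const, card_univ, smul_eq_mul, Fintype.card_sigma]
    have f2 : ∀ D₀ : PP, Fintype.card (↥(D₀ : Finset (Fin k × Fin k)) →
        List.Vector (Fin (2 ^ w)) t) = ((2 ^ w) ^ t) ^ m := by
      intro D₀
      rw [Fintype.card_fun, card_vector, Fintype.card_fin, Fintype.card_coe, hcI]
    rw [sum_congr rfl fun x _ => f2 x, sum_const, card_univ, smul_eq_mul, Fintype.card_coe]
    ring
  have e3 : PP.card ≤ (2 ^ l) ^ m := by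
    have f1 : PP.card ≤ (powersetCard m (univ : Finset (Fin k × Fin k))).card := by
      rw [hPP]
      exact card_filter_le _ _
    refine f1.trans ?_
    rw [card_powersetCard, card_univ, Fintype.card_prod, Fintype.card_fin]
    exact (Nat.choose_le_pow (k * k) m).trans (Nat.pow_le_pow_left hl m)
  have e4 : PP.card * (((2 ^ w) ^ t) ^ m * (2 ^ b) ^ m) ≤ 2 ^ ((l + w * t + b) * m) := by
    calc PP.card * (((2 ^ w) ^ t) ^ m * (2 ^ b) ^ m) ≤
        (2 ^ l) ^ m * (((2 ^ w) ^ t) ^ m * (2 ^ b) ^ m) := Nat.mul_le_mul_right _ e3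
      _ = 2 ^ ((l + w * t + b) * m) := by
          rw [← pow_mul, ← pow_mul, ← pow_mul, ← pow_mul, ← pow_add, ← pow_add]
          congr 1
          ring
  rw [e1]
  exact_mod_cast e4

end Pool.Agent.H701.TJ
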