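import Pool.Agent.H701.TJ.Hit
import Pool.Graph.R_seed8.Y516.OJ.Stm

set_option autoImplicit false

/-!
# Corruption for query graphs of bounded degree: powers
-/

namespace Pool.Agent.H701.TJ

open Finset
open Pool.Agent.Y516.OJ (ind)

theorem ind_true {P : Prop} (h : P) : ind P = 1 := by unfold ind; exact if_pos h

theorem ind_false {P : Prop} (h : ¬ P) : ind P = 0 := by unfold ind; exact if_neg h

theorem ind_nn (P : Prop) : 0 ≤ ind P := by unfold ind; split <;> norm_num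

theorem ind_le (P : Prop) : ind P ≤ 1 := by unfold ind; split <;> norm_num

/-- Jensen's inequality for powers, with weights of any sum -/
theorem jens {ι : Type} (s : Finset ι) (w z : ι → ℝ) (hw : ∀ i ∈ s, 0 ≤ w i)
    (hz : ∀ i ∈ s, 0 ≤ z i) (q : ℕ) (hq : 1 ≤ q) :
    (∑ i ∈ s, w i * z i) ^ q ≤ (∑ i ∈ s, w i) ^ (q - 1) * ∑ i ∈ s, w i * z i ^ q := by
  have hW : 0 ≤ ∑ i ∈ s, w i := sum_nonneg hw
  rcases hW.eq_or_lt with h0 | hpos
  · have h1 : ∀ i ∈ s, w i = 0 := (sum_eq_zero_iff_of_nonneg hw).1 h0.symm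
    have h2 : ∑ i ∈ s, w i * z i = 0 := sum_eq_zero fun i hi => by rw [h1 i hi, zero_mul]
    have h3 : ∑ i ∈ s, w i * z i ^ q = 0 := sum_eq_zero fun i hi => by rw [h1 i hi, zero_mul]
    rw [h2, h3, mul_zero, zero_pow (by omega)]
  · obtain ⟨W, hWd⟩ : ∃ W, W = ∑ i ∈ s, w i := ⟨_, rfl⟩
    rw [← hWd] at hpos ⊢
    have h1 := Real.pow_arith_mean_le_arith_mean_pow s (fun i => w i / W) z
      (fun i hi => div_nonneg (hw i hi) hpos.le)
      (by rw [← sum_div, ← hWd, div_self hpos.ne']) hz q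
    have h2 : ∑ i ∈ s, w i / W * z i = (∑ i ∈ s, w i * z i) / W := by
      rw [sum_div]
      exact sum_congr rfl fun i _ => by ring
    have h3 : ∑ i ∈ s, w i / W * z i ^ q = (∑ i ∈ s, w i * z i ^ q) / W := by
      rw [sum_div]
      exact sum_congr rfl fun i _ => by ring
    rw [h2, h3, div_pow, div_le_div_iff₀ (pow_pos hpos q) hpos] at h1
    have h4 : W ^ q = W ^ (q - 1) * W := by
      rw [← pow_succ, Nat.sub_add_cancel hq]
    rw [h4] at h1
    have h5 : (∑ i ∈ s, w i * z i) ^ q * W ≤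
        (W ^ (q - 1) * ∑ i ∈ s, w i * z i ^ q) * W := by
      calc _ ≤ _ := h1
        _ = _ := by ring
    exact le_of_mul_le_mul_right h5 hpos

variable {I C : Type} [Fintype I] [DecidableEq I] [Fintype C] [DecidableEq C]

/-- the probability of `x` -/
noncomputable def W {I : Type} [Fintype I] (α : ℝ) (x : I → Bool) : ℝ :=
  ∏ i, if x i = true then α else 1 - α

omit [DecidableEq I] in
theorem W_nonneg {α : ℝ} (h0 : 0 ≤ α) (h1 : α ≤ 1) (x : I → Bool) : 0 ≤ W α x := by
  unfold W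
  refine prod_nonneg fun i _ => ?_
  split <;> linarith

theorem sumW (α : ℝ) : ∑ x : I → Bool, W α x = 1 := by
  have h := (Finset.prod_univ_sum (fun _ : I => (univ : Finset Bool))
    (fun _ b => if b = true then α else 1 - α)).symm
  rw [Fintype.piFinset_univ] at h
  unfold W
  rw [h]
  simp

theorem sumW_zero (α : ℝ) (T : Finset I) :
    ∑ x : I → Bool, W α x * ind (∀ i ∈ T, x i = false) = (1 - α) ^ T.card := by
  have h := (Finset.prod_univ_sum (fun _ : I => (univ : Finset Bool))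
    (fun i b => (if b = true then α else 1 - α) * (if i ∈ T ∧ b = true then 0 else 1))).symm
  rw [Fintype.piFinset_univ] at h
  have h1 : ∀ x : I → Bool, W α x * ind (∀ i ∈ T, x i = false) =
      ∏ i, ((if x i = true then α else 1 - α) * (if i ∈ T ∧ x i = true then 0 else 1)) := by
    intro x
    rw [prod_mul_distrib]
    unfold W
    congr 1
    by_cases h2 : ∀ i ∈ T, x i = false
    · rw [ind_true h2]
      symm
      refine prod_eq_one fun i _ => ?_
      rw [if_neg]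
      rintro ⟨h3, h4⟩
      rw [h2 i h3] at h4
      exact Bool.false_ne_true h4
    · rw [ind_false h2]
      push Not at h2
      obtain ⟨i, hi, hx⟩ := h2
      symm
      refine prod_eq_zero (mem_univ i) ?_
      rw [if_pos]
      refine ⟨hi, ?_⟩
      cases hxi : x i with
      | true => rfl
      | false => exact absurd hxi hx
  rw [sum_congr rfl fun x _ => h1 x, h]
  have h2 : ∀ i : I, ∑ b : Bool, ((if b = true then α else 1 - α) *
      (if i ∈ T ∧ b = true then 0 else 1)) = if i ∈ T then 1 - α else 1 := by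
    intro i
    rw [Fintype.sum_bool]
    by_cases hi : i ∈ T
    · simp [hi]
    · simp [hi]
  rw [prod_congr rfl fun i _ => h2 i, prod_ite_mem, univ_inter, prod_const]

/-- the columns which occur in one of the `y b` -/
def ZZ {q : ℕ} (y : Fin q → C → Bool) : Finset C := univ.filter fun c => ∃ b, y b c = true

theorem law (α β : ℝ) (q : ℕ) (hβ : 1 - β = (1 - α) ^ q) (ψ : Finset C → ℝ) :
    ∑ y : Fin q → C → Bool, (∏ b, W α (y b)) * ψ (ZZ y) =
      ∑ Z ∈ (univ : Finset C).powerset, wZ β univ Z * ψ Z := by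
  classical
  -- exchange of the arguments
  have h1 : ∑ y : Fin q → C → Bool, (∏ b, W α (y b)) * ψ (ZZ y) =
      ∑ y : C → Fin q → Bool, (∏ c, W α (y c)) *
        ψ (univ.filter fun c => ∃ b, y c b = true) := by
    refine Fintype.sum_equiv (Equiv.piComm fun _ _ => Bool) _ _ fun y => ?_
    congr 1
    unfold W
    rw [prod_comm]
    rfl
  rw [h1]
  have h2 : ∀ y : C → Fin q → Bool, (∏ c, W α (y c)) *
      ψ (univ.filter fun c => ∃ b, y c b = true) =
      ∑ Z ∈ (univ : Finset C).powerset, (∏ c, (W α (y c) *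
        ind ((∃ b, y c b = true) ↔ c ∈ Z))) * ψ Z := by
    intro y
    rw [sum_eq_single (univ.filter fun c => ∃ b, y c b = true)]
    · congr 1
      refine prod_congr rfl fun c _ => ?_
      rw [ind_true, mul_one]
      rw [mem_filter]
      exact ⟨fun h => ⟨mem_univ _, h⟩, fun h => h.2⟩
    · intro Z _ hne
      have h3 : ∃ c, ¬ ((∃ b, y c b = true) ↔ c ∈ Z) := by
        by_contra hall
        push Not at hall
        apply hne
        ext c
        rw [mem_filter]
        exact ⟨fun h => ⟨mem_univ _, (hall c).2 h⟩, fun h => (hall c).1 h.2⟩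
      obtain ⟨c, hc⟩ := h3
      rw [prod_eq_zero (mem_univ c), zero_mul]
      rw [ind_false hc, mul_zero]
    · intro h
      exact absurd (mem_powerset.2 (subset_univ _)) h
  rw [sum_congr rfl fun y _ => h2 y, sum_comm]
  refine sum_congr rfl fun Z _ => ?_
  rw [← sum_mul]
  congr 1
  have h := (Finset.prod_univ_sum (fun _ : C => (univ : Finset (Fin q → Bool)))
    (fun c ω => W α ω * ind ((∃ b, ω b = true) ↔ c ∈ Z))).symm
  rw [Fintype.piFinset_univ] at h
  rw [h]
  unfold wZ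
  refine prod_congr rfl fun c _ => ?_
  have h4 : ∑ ω : Fin q → Bool, W α ω * ind (∀ i ∈ (univ : Finset (Fin q)), ω i = false) =
      1 - β := by
    rw [sumW_zero, hβ, card_univ, Fintype.card_fin]
  have h5 : ∀ ω : Fin q → Bool, (∀ i ∈ (univ : Finset (Fin q)), ω i = false) ↔
      ¬ ∃ b, ω b = true := by
    intro ω
    constructor
    · rintro h ⟨b, hb⟩
      rw [h b (mem_univ _)] at hb
      exact Bool.false_ne_true hb
    · intro h i _
      cases hi : ω i with
      | false => rfl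
      | true => exact absurd ⟨i, hi⟩ h
  by_cases hc : c ∈ Z
  · rw [if_pos hc]
    have h6 : ∀ ω : Fin q → Bool, W α ω * ind ((∃ b, ω b = true) ↔ c ∈ Z) =
        W α ω - W α ω * ind (∀ i ∈ (univ : Finset (Fin q)), ω i = false) := by
      intro ω
      by_cases h7 : ∃ b, ω b = true
      · rw [ind_true (by simp only [hc, iff_true]; exact h7),
          ind_false (by rw [h5]; exact not_not.2 h7)]
        ring
      · rw [ind_false (by simp only [hc, iff_true]; exact h7), ind_true (by rw [h5]; exact h7)]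
        ring
    rw [sum_congr rfl fun ω _ => h6 ω, sum_sub_distrib, h4, sumW]
    ring
  · rw [if_neg hc, ← h4]
    refine sum_congr rfl fun ω _ => ?_
    congr 2
    apply propext
    rw [h5]
    simp [hc]

/-- no pair in `S` is in conflict -/
def Fr (S : Finset (I × C)) (x : I → Bool) (y : C → Bool) : Prop :=
  ∀ d ∈ S, ¬ (x d.1 = true ∧ y d.2 = true)

/-- **Corruption**, in the form of powers. -/
theorem corr_pow (α β : ℝ) (q Δ : ℕ) (hq : 1 ≤ q) (hα0 : 0 ≤ α) (hα1 : α ≤ 1)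
    (hβ : 1 - β = (1 - α) ^ q) (h0 : 0 ≤ β) (h1 : β * Δ ≤ 1 / 4) (hβ4 : β ≤ 1 / 4)
    (S : Finset (I × C)) (hr : ∀ i, (S.filter fun d => d.1 = i).card ≤ Δ)
    (hc : ∀ c, (S.filter fun d => d.2 = c).card ≤ Δ)
    (F : (I → Bool) → ℝ) (G : (C → Bool) → ℝ) (hF0 : ∀ x, 0 ≤ F x) (hF1 : ∀ x, F x ≤ 1)
    (hG0 : ∀ y, 0 ≤ G y) (hG1 : ∀ y, G y ≤ 1) :
    (∑ x, ∑ y, W α x * W α y * (F x * G y * ind (Fr S x y))) ^ (q * q) ≤
      ((∑ x, W α x * F x) * (∑ y, W α y * G y)) ^ (q * (q - 1)) *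
        (1 - β ^ 2 / 8) ^ S.card := by
  have hWx : ∀ x : I → Bool, 0 ≤ W α x := W_nonneg hα0 hα1
  have hWy : ∀ y : C → Bool, 0 ≤ W α y := W_nonneg hα0 hα1
  obtain ⟨A, hA⟩ : ∃ A, A = ∑ x, W α x * F x := ⟨_, rfl⟩
  obtain ⟨B, hB⟩ : ∃ B, B = ∑ y, W α y * G y := ⟨_, rfl⟩
  rw [← hA, ← hB]
  have hA0 : 0 ≤ A := by
    rw [hA]
    exact sum_nonneg fun x _ => mul_nonneg (hWx x) (hF0 x)
  have hB0 : 0 ≤ B := by
    rw [hB]
    exact sum_nonneg fun y _ => mul_nonneg (hWy y) (hG0 y)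
  have hK0 : ∀ x y, (0 : ℝ) ≤ ind (Fr S x y) := fun x y => ind_nn _
  -- the function `g`
  obtain ⟨g, hg⟩ : ∃ g : (I → Bool) → ℝ, g = fun x =>
    ∑ y, W α y * G y * ind (Fr S x y) := ⟨_, rfl⟩
  have hg0 : ∀ x, 0 ≤ g x := by
    intro x
    rw [hg]
    exact sum_nonneg fun y _ => mul_nonneg (mul_nonneg (hWy y) (hG0 y)) (hK0 x y)
  obtain ⟨P, hP⟩ : ∃ P, P =
    ∑ x, ∑ y, W α x * W α y * (F x * G y * ind (Fr S x y)) := ⟨_, rfl⟩
  rw [← hP]
  have hPg : P = ∑ x, W α x * F x * g x := by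
    rw [hP]
    refine sum_congr rfl fun x _ => ?_
    rw [hg, mul_sum]
    refine sum_congr rfl fun y _ => ?_
    ring
  -- first step
  obtain ⟨P2, hP2⟩ : ∃ P2, P2 = ∑ x, W α x * g x ^ q := ⟨_, rfl⟩
  have s1 : P ^ q ≤ A ^ (q - 1) * P2 := by
    rw [hPg]
    refine (jens univ (fun x => W α x * F x) g (fun x _ => mul_nonneg (hWx x) (hF0 x))
      (fun x _ => hg0 x) q hq).trans ?_
    rw [← hA, hP2]
    refine mul_le_mul_of_nonneg_left ?_ (pow_nonneg hA0 _)
    refine sum_le_sum fun x _ => ?_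
    refine mul_le_mul_of_nonneg_right ?_ (pow_nonneg (hg0 x) _)
    calc W α x * F x ≤ W α x * 1 := mul_le_mul_of_nonneg_left (hF1 x) (hWx x)
      _ = W α x := mul_one _
  -- the function `H`
  obtain ⟨H, hH⟩ : ∃ H : (Fin q → C → Bool) → ℝ, H = fun y =>
    ∑ x, W α x * ∏ b, ind (Fr S x (y b)) := ⟨_, rfl⟩
  have hHit : ∀ y : Fin q → C → Bool, H y = (1 - α) ^ (hit S (ZZ y)).card := by
    intro y
    rw [hH, ← sumW_zero α (hit S (ZZ y))]
    refine sum_congr rfl fun x _ => ?_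
    congr 1
    have h2 : (∀ b, Fr S x (y b)) ↔ ∀ i ∈ hit S (ZZ y), x i = false := by
      constructor
      · intro h i hi
        rw [mem_hit] at hi
        obtain ⟨c, h3, h4⟩ := hi
        obtain ⟨b, hb⟩ := (mem_filter.1 h4).2
        cases hx : x i with
        | false => rfl
        | true => exact absurd ⟨hx, hb⟩ (h b (i, c) h3)
      · rintro h b ⟨i, c⟩ hd ⟨h3, h4⟩
        have h5 : i ∈ hit S (ZZ y) := mem_hit.2 ⟨c, hd, mem_filter.2 ⟨mem_univ _, ⟨b, h4⟩⟩⟩
        rw [h i h5] at h3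
        exact Bool.false_ne_true h3
    by_cases h3 : ∀ b, Fr S x (y b)
    · rw [ind_true (h2.1 h3)]
      exact prod_eq_one fun b _ => ind_true (h3 b)
    · rw [ind_false (fun h => h3 (h2.2 h))]
      push Not at h3
      obtain ⟨b, hb⟩ := h3
      exact prod_eq_zero (mem_univ b) (ind_false hb)
  have hα1' : 0 ≤ 1 - α := by linarith
  have hH0 : ∀ y, 0 ≤ H y := fun y => by
    rw [hHit]
    exact pow_nonneg hα1' _
  have hPi : ∀ y : Fin q → C → Bool, 0 ≤ ∏ b, (W α (y b) * G (y b)) := fun y =>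
    prod_nonneg fun b _ => mul_nonneg (hWy _) (hG0 _)
  have s2 : P2 = ∑ y : Fin q → C → Bool, (∏ b, (W α (y b) * G (y b))) * H y := by
    rw [hP2]
    have h2 : ∀ x, W α x * g x ^ q = ∑ y : Fin q → C → Bool, W α x *
        ((∏ b, (W α (y b) * G (y b))) * ∏ b, ind (Fr S x (y b))) := by
      intro x
      rw [hg]
      simp only
      rw [Fintype.sum_pow, mul_sum]
      refine sum_congr rfl fun y _ => ?_
      rw [← prod_mul_distrib]
    rw [sum_congr rfl fun x _ => h2 x, sum_comm]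
    refine sum_congr rfl fun y _ => ?_
    rw [hH]
    simp only
    rw [mul_sum]
    refine sum_congr rfl fun x _ => ?_
    ring
  have s3 : ∑ y : Fin q → C → Bool, ∏ b, (W α (y b) * G (y b)) = B ^ q := by
    rw [hB, Fintype.sum_pow]
  have s4 : P2 ^ q ≤ (B ^ q) ^ (q - 1) * (1 - β ^ 2 / 8) ^ S.card := by
    rw [s2]
    refine (jens univ (fun y : Fin q → C → Bool => ∏ b, (W α (y b) * G (y b))) H
      (fun y _ => hPi y) (fun y _ => hH0 y) q hq).trans ?_
    rw [s3]
    refine mul_le_mul_of_nonneg_left ?_ (pow_nonneg (pow_nonneg hB0 _) _)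
    have h2 : ∀ y : Fin q → C → Bool, (∏ b, (W α (y b) * G (y b))) * H y ^ q ≤
        (∏ b, W α (y b)) * (1 - β) ^ (hit S (ZZ y)).card := by
      intro y
      have h3 : H y ^ q = (1 - β) ^ (hit S (ZZ y)).card := by
        rw [hHit, hβ, ← pow_mul, ← pow_mul, mul_comm]
      rw [h3]
      refine mul_le_mul_of_nonneg_right ?_ (pow_nonneg (by linarith) _)
      refine prod_le_prod (fun b _ => mul_nonneg (hWy _) (hG0 _)) fun b _ => ?_
      calc W α (y b) * G (y b) ≤ W α (y b) * 1 := mul_le_mul_of_nonneg_left (hG1 _) (hWy _)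
        _ = W α (y b) := mul_one _
    refine (sum_le_sum fun y _ => h2 y).trans ?_
    rw [law α β q hβ fun Z => (1 - β) ^ (hit S Z).card]
    exact hit_bound β Δ h0 h1 hβ4 univ S (fun d _ => mem_univ _) hr hc
  have hP0 : 0 ≤ P := by
    rw [hPg]
    exact sum_nonneg fun x _ => mul_nonneg (mul_nonneg (hWx x) (hF0 x)) (hg0 x)
  calc P ^ (q * q) = (P ^ q) ^ q := by rw [pow_mul]
    _ ≤ (A ^ (q - 1) * P2) ^ q := pow_le_pow_left₀ (pow_nonneg hP0 _) s1 q
    _ = (A ^ (q - 1)) ^ q * P2 ^ q := by rw [mul_pow]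
    _ ≤ (A ^ (q - 1)) ^ q * ((B ^ q) ^ (q - 1) * (1 - β ^ 2 / 8) ^ S.card) :=
        mul_le_mul_of_nonneg_left s4 (pow_nonneg (pow_nonneg hA0 _) _)
    _ = (A * B) ^ (q * (q - 1)) * (1 - β ^ 2 / 8) ^ S.card := by
        rw [← pow_mul, ← pow_mul, mul_pow, mul_comm (q - 1) q]
        ring

end Pool.Agent.H701.TJ
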