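import Pool.Agent.H701.TJ.Corr
import Pool.Graph.R_seed8.Y516.OJ.Fin

set_option autoImplicit false

/-!
# Corruption for query graphs of bounded degree
-/

namespace Pool.Agent.H701.TJ

open Finset
open Pool.Agent.Y516.OJ (ind Fam Disj wt Wt EE)

variable {u k : ℕ}

theorem Wt_curry (α : ℝ) (x : Fin u × Fin k → Bool) :
    Wt α (Equiv.curry (Fin u) (Fin k) Bool x) = W α x := by
  unfold Wt wt W
  rw [Fintype.prod_prod_type]
  rfl

theorem sum_curry (f : Fam u k → ℝ) :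
    ∑ X : Fam u k, f X = ∑ x : Fin u × Fin k → Bool, f (Equiv.curry (Fin u) (Fin k) Bool x) :=
  (Equiv.sum_comp (Equiv.curry (Fin u) (Fin k) Bool) f).symm

theorem EE_curry (α : ℝ) (h : Fam u k → Fam u k → ℝ) :
    EE α h = ∑ x : Fin u × Fin k → Bool, ∑ y : Fin u × Fin k → Bool, W α x * W α y *
      h (Equiv.curry (Fin u) (Fin k) Bool x) (Equiv.curry (Fin u) (Fin k) Bool y) := by
  unfold EE
  rw [sum_curry]
  refine sum_congr rfl fun x _ => ?_
  rw [sum_curry]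
  refine sum_congr rfl fun y _ => ?_
  rw [Wt_curry, Wt_curry]

/-- the pairs of bits which are compared -/
def lift (u : ℕ) {k : ℕ} (S : Finset (Fin k × Fin k)) :
    Finset ((Fin u × Fin k) × (Fin u × Fin k)) :=
  ((univ : Finset (Fin u)) ×ˢ S).image fun q => ((q.1, q.2.1), (q.1, q.2.2))

theorem mem_lift {S : Finset (Fin k × Fin k)} {d : (Fin u × Fin k) × (Fin u × Fin k)} :
    d ∈ lift u S ↔ d.1.1 = d.2.1 ∧ (d.1.2, d.2.2) ∈ S := by
  unfold lift
  rw [mem_image]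
  constructor
  · rintro ⟨⟨e, s⟩, h, rfl⟩
    exact ⟨rfl, (mem_product.1 h).2⟩
  · rintro ⟨h1, h2⟩
    refine ⟨(d.1.1, (d.1.2, d.2.2)), mem_product.2 ⟨mem_univ _, h2⟩, ?_⟩
    refine Prod.ext rfl (Prod.ext h1 rfl)

theorem lift_card (S : Finset (Fin k × Fin k)) : (lift u S).card = u * S.card := by
  unfold lift
  rw [card_image_of_injective, card_product, card_univ, Fintype.card_fin]
  rintro ⟨e, s⟩ ⟨e', s'⟩ h
  simp only [Prod.mk.injEq] at h
  exact Prod.ext h.1.1 (Prod.ext h.1.2 h.2.2)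

theorem lift_row {S : Finset (Fin k × Fin k)} {Δ : ℕ}
    (hr : ∀ i, (S.filter fun d => d.1 = i).card ≤ Δ) (p : Fin u × Fin k) :
    ((lift u S).filter fun d => d.1 = p).card ≤ Δ := by
  refine (card_le_card_of_injOn (t := S.filter fun d => d.1 = p.2)
    (fun d => (d.1.2, d.2.2)) ?_ ?_).trans (hr p.2)
  · intro d hd
    rw [mem_coe, mem_filter, mem_lift] at hd
    rw [mem_coe, mem_filter]
    exact ⟨hd.1.2, congrArg Prod.snd hd.2⟩
  · intro d hd d' hd' he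
    rw [mem_coe, mem_filter, mem_lift] at hd hd'
    simp only [Prod.mk.injEq] at he
    have h1 : d.1 = d'.1 := hd.2.trans hd'.2.symm
    refine Prod.ext h1 (Prod.ext ?_ he.2)
    rw [← hd.1.1, ← hd'.1.1, h1]

theorem lift_col {S : Finset (Fin k × Fin k)} {Δ : ℕ}
    (hr : ∀ i, (S.filter fun d => d.2 = i).card ≤ Δ) (p : Fin u × Fin k) :
    ((lift u S).filter fun d => d.2 = p).card ≤ Δ := by
  refine (card_le_card_of_injOn (t := S.filter fun d => d.2 = p.2)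
    (fun d => (d.1.2, d.2.2)) ?_ ?_).trans (hr p.2)
  · intro d hd
    rw [mem_coe, mem_filter, mem_lift] at hd
    rw [mem_coe, mem_filter]
    exact ⟨hd.1.2, congrArg Prod.snd hd.2⟩
  · intro d hd d' hd' he
    rw [mem_coe, mem_filter, mem_lift] at hd hd'
    simp only [Prod.mk.injEq] at he
    have h1 : d.2 = d'.2 := hd.2.trans hd'.2.symm
    refine Prod.ext (Prod.ext ?_ he.1) h1
    rw [hd.1.1, hd'.1.1, h1]

theorem Fr_lift (S : Finset (Fin k × Fin k)) (x y : Fin u × Fin k → Bool) :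
    Fr (lift u S) x y ↔ ∀ d ∈ S, Disj (Equiv.curry (Fin u) (Fin k) Bool x)
      (Equiv.curry (Fin u) (Fin k) Bool y) d := by
  unfold Fr Disj
  constructor
  · intro h d hd e he
    exact h ((e, d.1), (e, d.2)) (mem_lift.2 ⟨rfl, hd⟩) he
  · rintro h ⟨⟨e, i⟩, ⟨e', j⟩⟩ hd ⟨h1, h2⟩
    rw [mem_lift] at hd
    obtain ⟨h3, h4⟩ := hd
    simp only at h3 h4
    subst h3
    exact h (i, j) h4 e ⟨h1, h2⟩

theorem beta_bounds (α : ℝ) (q : ℕ) (hα : 0 ≤ α) (h : (q : ℝ) * α ≤ 1 / 4) (hα1 : α ≤ 1) :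
    1 - (1 - α) ^ q ≤ q * α ∧ q * α / 2 ≤ 1 - (1 - α) ^ q := by
  have hqα : 0 ≤ (q : ℝ) * α := mul_nonneg (Nat.cast_nonneg q) hα
  constructor
  · have := one_add_mul_le_pow (a := -α) (by linarith) q
    have e : (1 + -α) = 1 - α := by ring
    rw [e] at this
    linarith
  · have h1 := one_add_mul_le_pow (a := α) (by linarith) q
    have h2 : (1 - α) ^ q * (1 + α) ^ q ≤ 1 := by
      rw [← mul_pow]
      exact pow_le_one₀ (by nlinarith) (by nlinarith)
    have h3 : 0 ≤ (1 - α) ^ q := pow_nonneg (by linarith) q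
    have h4 : (1 - α) ^ q * (1 + q * α) ≤ 1 := (mul_le_mul_of_nonneg_left h1 h3).trans h2
    have h5 : 1 ≤ (1 - q * α / 2) * (1 + q * α) := by nlinarith
    have h6 : (1 - α) ^ q * (1 + q * α) ≤ (1 - q * α / 2) * (1 + q * α) := h4.trans h5
    have h7 : (1 - α) ^ q ≤ 1 - q * α / 2 := le_of_mul_le_mul_right h6 (by linarith)
    linarith

/-- **Corruption** for query graphs of bounded degree. -/
theorem corrB (u k q Δ : ℕ) (α : ℝ) (hq : 1 ≤ q) (hα : 0 < α) (hα1 : α ≤ 1)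
    (h1 : (q : ℝ) * α * Δ ≤ 1 / 4) (h2 : (q : ℝ) * α ≤ 1 / 4) (S : Finset (Fin k × Fin k))
    (hr : ∀ i, (S.filter fun d => d.1 = i).card ≤ Δ)
    (hc : ∀ i, (S.filter fun d => d.2 = i).card ≤ Δ) (F G : Fam u k → Bool) :
    EE α (fun X Y => ind (F X = true) * ind (G Y = true) * ind (∀ d ∈ S, Disj X Y d)) ≤
      Real.exp (-(α ^ 2 * u * S.card / 32)) *
        (EE α fun X Y => ind (F X = true) * ind (G Y = true)) ^ (1 - 1 / (q : ℝ)) := by
  obtain ⟨β, hβ⟩ : ∃ β, β = 1 - (1 - α) ^ q := ⟨_, rfl⟩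
  obtain ⟨hb1, hb2⟩ := beta_bounds α q hα.le h2 hα1
  rw [← hβ] at hb1 hb2
  have hqα : 0 ≤ (q : ℝ) * α := mul_nonneg (Nat.cast_nonneg q) hα.le
  have hβ0 : 0 ≤ β := by linarith
  have hβ4 : β ≤ 1 / 4 := hb1.trans h2
  have hβΔ : β * Δ ≤ 1 / 4 := by
    refine le_trans ?_ h1
    exact mul_le_mul_of_nonneg_right hb1 (Nat.cast_nonneg Δ)
  have hpow := corr_pow α β q Δ hq hα.le hα1 (by rw [hβ]; ring) hβ0 hβΔ hβ4 (lift u S)
    (lift_row hr) (lift_col hc)
    (fun x => ind (F (Equiv.curry (Fin u) (Fin k) Bool x) = true))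
    (fun y => ind (G (Equiv.curry (Fin u) (Fin k) Bool y) = true))
    (fun _ => ind_nn _) (fun _ => ind_le _) (fun _ => ind_nn _) (fun _ => ind_le _)
  obtain ⟨P, hP⟩ : ∃ P, P = EE α (fun X Y => ind (F X = true) * ind (G Y = true) *
    ind (∀ d ∈ S, Disj X Y d)) := ⟨_, rfl⟩
  obtain ⟨Q, hQ⟩ : ∃ Q, Q = EE α (fun X Y => ind (F X = true) * ind (G Y = true)) := ⟨_, rfl⟩
  rw [← hP, ← hQ]
  have hP' : P = ∑ x : Fin u × Fin k → Bool, ∑ y : Fin u × Fin k → Bool, W α x * W α y *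
      (ind (F (Equiv.curry (Fin u) (Fin k) Bool x) = true) *
        ind (G (Equiv.curry (Fin u) (Fin k) Bool y) = true) * ind (Fr (lift u S) x y)) := by
    rw [hP, EE_curry]
    refine sum_congr rfl fun x _ => sum_congr rfl fun y _ => ?_
    congr 2
    rw [propext (Fr_lift S x y)]
  have hQ' : Q = (∑ x : Fin u × Fin k → Bool, W α x *
      ind (F (Equiv.curry (Fin u) (Fin k) Bool x) = true)) *
      (∑ y : Fin u × Fin k → Bool, W α y *
      ind (G (Equiv.curry (Fin u) (Fin k) Bool y) = true)) := by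
    rw [hQ, EE_curry, sum_mul_sum]
    refine sum_congr rfl fun x _ => sum_congr rfl fun y _ => ?_
    ring
  rw [← hP', ← hQ', lift_card] at hpow
  have hP0 : 0 ≤ P := by
    rw [hP']
    exact sum_nonneg fun x _ => sum_nonneg fun y _ => mul_nonneg
      (mul_nonneg (W_nonneg hα.le hα1 _) (W_nonneg hα.le hα1 _))
      (mul_nonneg (mul_nonneg (ind_nn _) (ind_nn _)) (ind_nn _))
  have hQ0 : 0 ≤ Q := by
    rw [hQ']
    exact mul_nonneg (sum_nonneg fun x _ => mul_nonneg (W_nonneg hα.le hα1 _) (ind_nn _))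
      (sum_nonneg fun x _ => mul_nonneg (W_nonneg hα.le hα1 _) (ind_nn _))
  have hη0 : 0 ≤ 1 - β ^ 2 / 8 := by nlinarith
  have hexp : (1 - β ^ 2 / 8) ^ (u * S.card) ≤
      Real.exp (-(α ^ 2 * u * S.card / 32)) ^ (q * q) := by
    have e1 : 1 - β ^ 2 / 8 ≤ Real.exp (-(β ^ 2 / 8)) := by
      have := Real.add_one_le_exp (-(β ^ 2 / 8))
      linarith
    calc (1 - β ^ 2 / 8) ^ (u * S.card) ≤ Real.exp (-(β ^ 2 / 8)) ^ (u * S.card) :=
          pow_le_pow_left₀ hη0 e1 _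
      _ = Real.exp (((u * S.card : ℕ) : ℝ) * -(β ^ 2 / 8)) := by rw [← Real.exp_nat_mul]
      _ ≤ Real.exp (((q * q : ℕ) : ℝ) * -(α ^ 2 * u * S.card / 32)) := by
          apply Real.exp_le_exp.2
          push_cast
          have h3 : (q * α / 2) ^ 2 ≤ β ^ 2 := pow_le_pow_left₀ (by positivity) hb2 2
          have h4 : (0 : ℝ) ≤ (u : ℝ) * S.card := by positivity
          nlinarith
      _ = _ := by rw [← Real.exp_nat_mul]
  have hq0 : (0 : ℝ) < q := by exact_mod_cast hq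
  -- comparison of the powers
  have hR0 : 0 ≤ Real.exp (-(α ^ 2 * u * S.card / 32)) * Q ^ (1 - 1 / (q : ℝ)) :=
    mul_nonneg (Real.exp_pos _).le (Real.rpow_nonneg hQ0 _)
  have hfin : P ^ (q * q) ≤
      (Real.exp (-(α ^ 2 * u * S.card / 32)) * Q ^ (1 - 1 / (q : ℝ))) ^ (q * q) := by
    rw [mul_pow]
    have e2 : (Q ^ (1 - 1 / (q : ℝ))) ^ (q * q) = Q ^ (q * (q - 1)) := by
      rw [← Real.rpow_natCast (Q ^ (1 - 1 / (q : ℝ))), ← Real.rpow_mul hQ0,
        ← Real.rpow_natCast Q]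
      congr 1
      rw [Nat.cast_mul, Nat.cast_mul, Nat.cast_sub hq]
      field_simp
      push_cast
      ring
    rw [e2, mul_comm (Real.exp _ ^ (q * q))]
    exact hpow.trans (mul_le_mul_of_nonneg_left hexp (pow_nonneg hQ0 _))
  have hqq : q * q ≠ 0 := by
    have : 0 < q * q := Nat.mul_pos hq hq
    omega
  exact le_of_pow_le_pow_left₀ hqq hR0 hfin

end Pool.Agent.H701.TJ
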