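import Pool.Agent.H701.TJ.Sim
import Pool.Graph.R_seed8.Y516.OJ.Stm

set_option autoImplicit false

/-!
# Data structures with `t` adaptive probes to joint cells: definitions
-/

namespace Pool.Agent.H701.TJ

open Finset
open Pool.Agent.Y516.OJ (Prot ind)

/-- A (deterministic) data structure for 3SUM-Indexing on two arrays of `n` numbers, with `s` joint
cells of `w` bits. Every cell may be an arbitrary function of both arrays. On the query `z` joint
cells are read one after the other; the number `addr z A v` of the next cell may be an arbitrary
function of `z`, of the first array `A` and of the list `v` of the contents read so far. Then the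
query is answered by a communication protocol, which may depend on `z` and on the contents which
have been read, between a player who knows the first array and a player who knows the second
array. -/
structure SumTDS (n w s : ℕ) where
  /-- the contents of the cells -/
  cell : (Fin n → ℕ) → (Fin n → ℕ) → Fin s → Fin (2 ^ w)
  /-- the next cell which is read on a query -/
  addr : ℕ → (Fin n → ℕ) → List (Fin (2 ^ w)) → Fin s
  /-- the protocol which is used for a query and a list of contents -/
  query : ℕ → List (Fin (2 ^ w)) → Prot (Fin n → ℕ) (Fin n → ℕ)

/-- the list of the contents of the first `l` joint cells which are read on the query `z` -/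
def SumTDS.contents {n w s : ℕ} (D : SumTDS n w s) (A B : Fin n → ℕ) (z : ℕ) :
    ℕ → List (Fin (2 ^ w))
  | 0 => []
  | l + 1 => D.contents A B z l ++ [D.cell A B (D.addr z A (D.contents A B z l))]

/-- the answer to the query `z` on the arrays `A`, `B`, if `t` joint cells are read -/
def SumTDS.answer {n w s : ℕ} (D : SumTDS n w s) (t : ℕ) (A B : Fin n → ℕ) (z : ℕ) : Bool :=
  (D.query z (D.contents A B z t)).run A B

/-- The random data structure `D` (which is `D ω` with probability `p ω`) answers, with `t` joint
probes and protocols of at most `b` bits, every query `z < n ^ 2` (is `z` the sum of an entry of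
`A` and an entry of `B`?) on all arrays with entries at most `n ^ 2` with error probability at most
`1 / (2 * 10 ^ 6)`. -/
def SolvesSumT {n w s : ℕ} (t b : ℕ) {Ω : Type} [Fintype Ω] (p : Ω → ℝ)
    (D : Ω → SumTDS n w s) : Prop :=
  (∀ ω, 0 ≤ p ω) ∧ ∑ ω, p ω = 1 ∧ (∀ ω z v, ((D ω).query z v).depth ≤ b) ∧
    ∀ A B : Fin n → ℕ, (∀ i, A i ≤ n ^ 2) → (∀ j, B j ≤ n ^ 2) → ∀ z : ℕ, z < n ^ 2 →
      1 - 1 / (2 * 10 ^ 6) ≤
        ∑ ω, p ω * ind ((D ω).answer t A B z = true ↔ ∃ i j, A i + B j = z)

/-- A (deterministic) data structure for families of `2 * k` subsets of a universe with `u`
elements, which are given as two halves of `k` sets, with `s` joint cells of `w` bits. Every cell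
may be an arbitrary function of the whole family. On the query `(i, j)` (do the set number `i` of
the first half and the set number `j` of the second half intersect?) joint cells are read one after
the other; the number `addr i j F v` of the next cell may be an arbitrary function of the query, of
the first half `F` and of the list `v` of the contents read so far. Then the query is answered by a
communication protocol, which may depend on the query and on the contents which have been read,
between a player who knows the first half of the family and a player who knows the second half. -/
structure PairTDS (k u w s : ℕ) where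
  /-- the contents of the cells -/
  cell : (Fin k → Finset (Fin u)) → (Fin k → Finset (Fin u)) → Fin s → Fin (2 ^ w)
  /-- the next cell which is read on a query -/
  addr : Fin k → Fin k → (Fin k → Finset (Fin u)) → List (Fin (2 ^ w)) → Fin s
  /-- the protocol which is used for a query and a list of contents -/
  query : Fin k → Fin k → List (Fin (2 ^ w)) →
    Prot (Fin k → Finset (Fin u)) (Fin k → Finset (Fin u))

/-- the list of the contents of the first `l` joint cells which are read on the query `(i, j)` -/
def PairTDS.contents {k u w s : ℕ} (D : PairTDS k u w s) (F G : Fin k → Finset (Fin u))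
    (i j : Fin k) : ℕ → List (Fin (2 ^ w))
  | 0 => []
  | l + 1 => D.contents F G i j l ++ [D.cell F G (D.addr i j F (D.contents F G i j l))]

/-- the answer to the query `(i, j)` on the family with the halves `F`, `G`, if `t` joint cells are
read -/
def PairTDS.answer {k u w s : ℕ} (D : PairTDS k u w s) (t : ℕ) (F G : Fin k → Finset (Fin u))
    (i j : Fin k) : Bool :=
  (D.query i j (D.contents F G i j t)).run F G

/-- The random data structure `D` (which is `D ω` with probability `p ω`) decides, with `t` joint
probes and protocols of at most `b` bits, for all families of total size at most `N` and all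
queries `(i, j)`, whether the sets `F i` and `G j` intersect, with error probability at most
`1 / (2 * 10 ^ 6)`. -/
def SolvesPairT {k u w s : ℕ} (t b N : ℕ) {Ω : Type} [Fintype Ω] (p : Ω → ℝ)
    (D : Ω → PairTDS k u w s) : Prop :=
  (∀ ω, 0 ≤ p ω) ∧ ∑ ω, p ω = 1 ∧ (∀ ω i j v, ((D ω).query i j v).depth ≤ b) ∧
    ∀ F G : Fin k → Finset (Fin u), ∑ i, (F i).card + ∑ j, (G j).card ≤ N → ∀ i j : Fin k,
      1 - 1 / (2 * 10 ^ 6) ≤
        ∑ ω, p ω * ind ((D ω).answer t F G i j = true ↔ (F i ∩ G j).Nonempty)

end Pool.Agent.H701.TJ
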