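import Pool.Agent.H701.TJ.Num
import Pool.Agent.H701.TJ.Defs

set_option autoImplicit false

/-!
# Data structures with `t` adaptive probes to joint cells: the theorems
-/

namespace Pool.Agent.H701.TJ

open Finset
open Pool.Agent.Y516.OJ (Prot Fam Disj EE ind tot toArr SA SB zz zz_lt sum_iff arrA_le arrB_le sets
  sets_iff sum_sets)

theorem final_num (N t w b L : ℕ) (hN : 2 * N < 2 * 10 ^ 11 * (t ^ 4 * (w + 2 * L)) *
    (2 * L + w * t + b) * (3 * 10 ^ 6 * (t ^ 4 * (w + 2 * L)))) (s : ℕ) (hs : 1 ≤ s) :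
    N ^ (t + 1) ≤ (10 ^ 19 * t ^ 8 * (w + L) ^ 2 * (b + w * t + L)) ^ (t + 1) * s ^ t := by
  have h1 : N ≤ 10 ^ 19 * t ^ 8 * (w + L) ^ 2 * (b + w * t + L) := by
    have e1 : 2 * 10 ^ 11 * (t ^ 4 * (w + 2 * L)) * (2 * L + w * t + b) *
        (3 * 10 ^ 6 * (t ^ 4 * (w + 2 * L))) ≤ 2 * 10 ^ 11 * (t ^ 4 * (2 * (w + L))) *
        (2 * (b + w * t + L)) * (3 * 10 ^ 6 * (t ^ 4 * (2 * (w + L)))) := by
      gcongr <;> omega
    have e2 : 2 * 10 ^ 11 * (t ^ 4 * (2 * (w + L))) * (2 * (b + w * t + L)) *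
        (3 * 10 ^ 6 * (t ^ 4 * (2 * (w + L)))) =
        48 * 10 ^ 17 * (t ^ 8 * (w + L) ^ 2 * (b + w * t + L)) := by ring
    have e3 : 10 ^ 19 * t ^ 8 * (w + L) ^ 2 * (b + w * t + L) =
        10 ^ 19 * (t ^ 8 * (w + L) ^ 2 * (b + w * t + L)) := by ring
    omega
  calc N ^ (t + 1) ≤ (10 ^ 19 * t ^ 8 * (w + L) ^ 2 * (b + w * t + L)) ^ (t + 1) * 1 := by
        rw [mul_one]
        exact Nat.pow_le_pow_left h1 _
    _ ≤ _ := Nat.mul_le_mul_left _ (Nat.one_le_pow _ _ hs)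

theorem final_num2 (N t w b L s : ℕ) (h : N ^ (t + 1) ≤ (2 * (2 * 10 ^ 11 *
    (t ^ 4 * (w + 2 * L)) * (2 * L + w * t + b)) * (3 * 10 ^ 6 * (t ^ 4 * (w + 2 * L)))) ^
    (t + 1) * s ^ t) :
    N ^ (t + 1) ≤ (10 ^ 19 * t ^ 8 * (w + L) ^ 2 * (b + w * t + L)) ^ (t + 1) * s ^ t := by
  refine h.trans (Nat.mul_le_mul_right _ (Nat.pow_le_pow_left ?_ _))
  have e1 : 2 * (2 * 10 ^ 11 * (t ^ 4 * (w + 2 * L)) * (2 * L + w * t + b)) *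
        (3 * 10 ^ 6 * (t ^ 4 * (w + 2 * L))) ≤ 2 * (2 * 10 ^ 11 * (t ^ 4 * (2 * (w + L))) *
        (2 * (b + w * t + L))) * (3 * 10 ^ 6 * (t ^ 4 * (2 * (w + L)))) := by
    gcongr <;> omega
  have e2 : 2 * (2 * 10 ^ 11 * (t ^ 4 * (2 * (w + L))) * (2 * (b + w * t + L))) *
      (3 * 10 ^ 6 * (t ^ 4 * (2 * (w + L)))) =
      96 * 10 ^ 17 * (t ^ 8 * (w + L) ^ 2 * (b + w * t + L)) := by ring
  have e3 : 10 ^ 19 * t ^ 8 * (w + L) ^ 2 * (b + w * t + L) =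
      10 ^ 19 * (t ^ 8 * (w + L) ^ 2 * (b + w * t + L)) := by ring
  omega

theorem sq_le_clog (N : ℕ) : N ^ 2 ≤ 2 ^ (2 * Nat.clog 2 N) := by
  have h := Nat.le_pow_clog (b := 2) (by norm_num) N
  calc N ^ 2 ≤ (2 ^ Nat.clog 2 N) ^ 2 := Nat.pow_le_pow_left h 2
    _ = _ := by
        rw [← pow_mul]
        congr 1
        ring

theorem nonempty_of_sum {Ω : Type} [Fintype Ω] (p : Ω → ℝ) (hp1 : ∑ ω, p ω = 1) : Nonempty Ω := by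
  by_contra hno
  rw [not_nonempty_iff] at hno
  rw [Finset.univ_eq_empty, Finset.sum_empty] at hp1
  exact zero_ne_one hp1

/-- **3SUM-Indexing with `t` adaptive joint probes.** -/
theorem sum_t (n t w b s : ℕ) (ht : 1 ≤ t) (hw : 1 ≤ w) (Ω : Type) [Fintype Ω] (p : Ω → ℝ)
    (D : Ω → SumTDS n w s) (h : SolvesSumT t b p D) :
    n ^ (t + 1) ≤ (10 ^ 19 * t ^ 8 * (w + Nat.clog 2 n) ^ 2 *
      (b + w * t + Nat.clog 2 n)) ^ (t + 1) * s ^ t := by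
  obtain ⟨hp, hp1, hd, hgood⟩ := h
  obtain ⟨L, hL⟩ : ∃ L, L = Nat.clog 2 n := ⟨_, rfl⟩
  have hl : n ^ 2 ≤ 2 ^ (2 * L) := by rw [hL]; exact sq_le_clog n
  rw [← hL]
  have hs : 1 ≤ s := by
    obtain ⟨ω⟩ := nonempty_of_sum p hp1
    have := ((D ω).addr 0 (fun _ => 0) []).2
    omega
  obtain ⟨Λ, hΛ⟩ : ∃ Λ, Λ = 3 * 10 ^ 6 * (t ^ 4 * (w + 2 * L)) := ⟨_, rfl⟩
  obtain ⟨B, hB⟩ : ∃ B, B = 2 * L + w * t + b := ⟨_, rfl⟩
  obtain ⟨M, hM⟩ : ∃ M, M = 2 * 10 ^ 11 * (t ^ 4 * (w + 2 * L)) * B := ⟨_, rfl⟩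
  rcases lt_or_ge (2 * n) (M * Λ) with hN | hN
  · refine final_num n t w b L ?_ s hs
    rw [hM, hΛ, hB] at hN
    exact hN
  refine final_num2 n t w b L s ?_
  obtain ⟨k, hk1, hkM, hk⟩ := master_t n t w b (2 * L) Λ B M ht hw hl hΛ hB hM hN
  rw [← hB, ← hM, ← hΛ]
  have hZ1 : 1 ≤ t ^ 4 * (w + 2 * L) := Nat.mul_pos (Nat.pow_pos ht) (by omega)
  have hB1 : 1 ≤ B := by
    rw [hB]
    have : 1 ≤ w * t := Nat.mul_pos hw ht
    omega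
  have hM1 : 8 ≤ M := by
    have : 1 ≤ t ^ 4 * (w + 2 * L) * B := Nat.mul_pos hZ1 hB1
    have e : M = 2 * 10 ^ 11 * (t ^ 4 * (w + 2 * L) * B) := by rw [hM]; ring
    omega
  have hu : 1 ≤ M ^ 2 / 8 := by
    rw [Nat.le_div_iff_mul_le (by norm_num), one_mul]
    calc 8 ≤ M := hM1
      _ ≤ M ^ 2 := Nat.le_self_pow (by norm_num) M
  have hkk : 2 * (M ^ 2 / 8) * (k * k) ≤ n ^ 2 := by
    have h1 : M ^ 2 / 8 * 8 ≤ M ^ 2 := Nat.div_mul_le_self _ _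
    have h2 : M ^ 2 / 8 * 8 * (k * k) ≤ M ^ 2 * (k * k) := Nat.mul_le_mul_right _ h1
    have h3 : M ^ 2 * (k * k) = (k * M) ^ 2 := by ring
    have h4 : (k * M) ^ 2 ≤ (2 * n) ^ 2 := Nat.pow_le_pow_left hkM 2
    have h5 : (2 * n) ^ 2 = 4 * n ^ 2 := by ring
    have h6 : M ^ 2 / 8 * 8 * (k * k) = 4 * (2 * (M ^ 2 / 8) * (k * k)) := by ring
    omega
  refine hk s Ω p
    (fun ω X Y c => (D ω).cell (toArr n (n ^ 2) (SA X)) (toArr n (n ^ 2) (SB Y)) c)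
    (fun ω d X v => (D ω).addr (zz (M ^ 2 / 8) k d.1 d.2) (toArr n (n ^ 2) (SA X)) v)
    (fun ω d v => ((D ω).query (zz (M ^ 2 / 8) k d.1 d.2) v).comap
      (fun X => toArr n (n ^ 2) (SA X)) (fun Y => toArr n (n ^ 2) (SB Y)))
    hp hp1 (fun ω d v => by rw [Pool.Agent.Y516.OJ.Prot.depth_comap]; exact hd _ _ _) ?_
  intro X Y hXY d
  refine (hgood (toArr n (n ^ 2) (SA X)) (toArr n (n ^ 2) (SB Y)) (arrA_le hkk X) (arrB_le hkk Y)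
    (zz (M ^ 2 / 8) k d.1 d.2) (zz_lt hu hkk _ _)).trans (le_of_eq ?_)
  refine Finset.sum_congr rfl fun ω _ => ?_
  rw [sum_iff hu hkk X Y (by omega) (by omega) d.1 d.2, Pool.Agent.Y516.OJ.Prot.run_comap]
  have htr : ∀ l, tr (fun X Y c => (D ω).cell (toArr n (n ^ 2) (SA X))
      (toArr n (n ^ 2) (SB Y)) c) (fun (d : Fin k × Fin k) X v =>
      (D ω).addr (zz (M ^ 2 / 8) k d.1 d.2) (toArr n (n ^ 2) (SA X)) v) X Y d l =
      (D ω).contents (toArr n (n ^ 2) (SA X)) (toArr n (n ^ 2) (SB Y))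
        (zz (M ^ 2 / 8) k d.1 d.2) l := by
    intro l
    induction l with
    | zero => rfl
    | succ l ih => rw [tr, SumTDS.contents, ih]
  rw [htr]
  rfl

/-- **Set intersection with `t` adaptive joint probes.** -/
theorem pair_t (N t w b : ℕ) (ht : 1 ≤ t) (hw : 1 ≤ w) :
    ∃ k u : ℕ, k ≤ max 1 N ∧
      u ≤ 10 ^ 23 * t ^ 8 * (w + Nat.clog 2 N) ^ 2 * (b + w * t + Nat.clog 2 N) ^ 2 ∧
      ∀ (s : ℕ) (Ω : Type) [Fintype Ω] (p : Ω → ℝ) (D : Ω → PairTDS k u w s),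
        SolvesPairT t b N p D →
        N ^ (t + 1) ≤ (10 ^ 19 * t ^ 8 * (w + Nat.clog 2 N) ^ 2 *
          (b + w * t + Nat.clog 2 N)) ^ (t + 1) * s ^ t := by
  obtain ⟨L, hL⟩ : ∃ L, L = Nat.clog 2 N := ⟨_, rfl⟩
  have hl : N ^ 2 ≤ 2 ^ (2 * L) := by rw [hL]; exact sq_le_clog N
  rw [← hL]
  obtain ⟨Λ, hΛ⟩ : ∃ Λ, Λ = 3 * 10 ^ 6 * (t ^ 4 * (w + 2 * L)) := ⟨_, rfl⟩
  obtain ⟨B, hB⟩ : ∃ B, B = 2 * L + w * t + b := ⟨_, rfl⟩
  obtain ⟨M, hM⟩ : ∃ M, M = 2 * 10 ^ 11 * (t ^ 4 * (w + 2 * L)) * B := ⟨_, rfl⟩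
  have hs : ∀ (k' u s : ℕ) (_ : 1 ≤ k') (Ω : Type) [Fintype Ω] (p : Ω → ℝ)
      (D : Ω → PairTDS k' u w s), ∑ ω, p ω = 1 → 1 ≤ s := by
    intro k' u s hk' Ω _ p D hp1
    obtain ⟨ω⟩ := nonempty_of_sum p hp1
    have h1 := ((D ω).addr ⟨0, hk'⟩ ⟨0, hk'⟩ (fun _ => ∅) []).2
    omega
  rcases lt_or_ge (2 * N) (M * Λ) with hN | hN
  · refine ⟨1, 0, le_max_left _ _, Nat.zero_le _, ?_⟩
    intro s Ω _ p D h
    refine final_num N t w b L ?_ s (hs 1 0 s le_rfl Ω p D h.2.1)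
    rw [hM, hΛ, hB] at hN
    exact hN
  obtain ⟨k, hk1, hkM, hk⟩ := master_t N t w b (2 * L) Λ B M ht hw hl hΛ hB hM hN
  have hZ1 : 1 ≤ t ^ 4 * (w + 2 * L) := Nat.mul_pos (Nat.pow_pos ht) (by omega)
  have hB1 : 1 ≤ B := by
    rw [hB]
    have : 1 ≤ w * t := Nat.mul_pos hw ht
    omega
  have hM1 : 8 ≤ M := by
    have : 1 ≤ t ^ 4 * (w + 2 * L) * B := Nat.mul_pos hZ1 hB1
    have e : M = 2 * 10 ^ 11 * (t ^ 4 * (w + 2 * L) * B) := by rw [hM]; ring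
    omega
  have hkN : k ≤ N := by
    have h1 : k * 2 ≤ k * M := Nat.mul_le_mul_left _ (by omega)
    omega
  refine ⟨k, M ^ 2 / 8, hkN.trans (le_max_right _ _), ?_, ?_⟩
  · rw [hM, hB]
    have e1 : (2 * 10 ^ 11 * (t ^ 4 * (w + 2 * L)) * (2 * L + w * t + b)) ^ 2 / 8 ≤
        (2 * 10 ^ 11 * (t ^ 4 * (2 * (w + L))) * (2 * (b + w * t + L))) ^ 2 / 8 := by
      apply Nat.div_le_div_right
      gcongr <;> omega
    refine e1.trans ?_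
    have e2 : (2 * 10 ^ 11 * (t ^ 4 * (2 * (w + L))) * (2 * (b + w * t + L))) ^ 2 =
        8 * (8 * 10 ^ 22 * (t ^ 8 * (w + L) ^ 2 * (b + w * t + L) ^ 2)) := by ring
    rw [e2, Nat.mul_div_cancel_left _ (by norm_num)]
    have e3 : 10 ^ 23 * t ^ 8 * (w + L) ^ 2 * (b + w * t + L) ^ 2 =
        10 ^ 23 * (t ^ 8 * (w + L) ^ 2 * (b + w * t + L) ^ 2) := by ring
    rw [e3]
    exact Nat.mul_le_mul_right _ (by norm_num)
  intro s Ω _ p D h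
  obtain ⟨hp, hp1, hd, hgood⟩ := h
  refine final_num2 N t w b L s ?_
  rw [← hB, ← hM, ← hΛ]
  refine hk s Ω p
    (fun ω X Y c => (D ω).cell (sets X) (sets Y) c)
    (fun ω d X v => (D ω).addr d.1 d.2 (sets X) v)
    (fun ω d v => ((D ω).query d.1 d.2 v).comap sets sets)
    hp hp1 (fun ω d v => by rw [Pool.Agent.Y516.OJ.Prot.depth_comap]; exact hd _ _ _ _) ?_
  intro X Y hXY d
  refine (hgood (sets X) (sets Y) (by rw [sum_sets, sum_sets]; exact hXY) d.1 d.2).trans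
    (le_of_eq ?_)
  refine Finset.sum_congr rfl fun ω _ => ?_
  rw [sets_iff X Y d.1 d.2, Pool.Agent.Y516.OJ.Prot.run_comap]
  have htr : ∀ l, tr (fun X Y c => (D ω).cell (sets X) (sets Y) c)
      (fun (d : Fin k × Fin k) X v => (D ω).addr d.1 d.2 (sets X) v) X Y d l =
      (D ω).contents (sets X) (sets Y) d.1 d.2 l := by
    intro l
    induction l with
    | zero => rfl
    | succ l ih => rw [tr, PairTDS.contents, ih]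
  rw [htr]
  rfl

end Pool.Agent.H701.TJ
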