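import Mathlib

set_option autoImplicit false

/-!
# Random sets of columns hit many rows
-/

namespace Pool.Agent.H701.TJ

open Finset

variable {I C : Type} [DecidableEq I] [DecidableEq C]

/-- the rows which are joined by `S` to a column in `Z` -/
def hit (S : Finset (I × C)) (Z : Finset C) : Finset I :=
  (S.filter fun d => d.2 ∈ Z).image Prod.fst

theorem mem_hit {S : Finset (I × C)} {Z : Finset C} {i : I} :
    i ∈ hit S Z ↔ ∃ c, (i, c) ∈ S ∧ c ∈ Z := by
  unfold hit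
  rw [mem_image]
  constructor
  · rintro ⟨⟨i', c⟩, h, rfl⟩
    exact ⟨c, (mem_filter.1 h).1, (mem_filter.1 h).2⟩
  · rintro ⟨c, h1, h2⟩
    exact ⟨(i, c), mem_filter.2 ⟨h1, h2⟩, rfl⟩

/-- the numerical inequality -/
theorem key (β : ℝ) (Δ a : ℕ) (h0 : 0 ≤ β) (h1 : β * Δ ≤ 1 / 4) (hβ : β ≤ 1 / 4) (ha : a ≤ Δ) :
    (1 - β) * ((1 - β ^ 2 / 8)⁻¹) ^ a + β * ((1 - β) * ((1 - β ^ 2 / 8)⁻¹) ^ Δ) ^ a ≤ 1 := by
  have hη : 0 < 1 - β ^ 2 / 8 := by nlinarith
  have haR : (a : ℝ) ≤ Δ := by exact_mod_cast ha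
  have ha0 : (0 : ℝ) ≤ a := Nat.cast_nonneg a
  have hΔ0 : (0 : ℝ) ≤ Δ := Nat.cast_nonneg Δ
  have haβ : β * a ≤ 1 / 4 := by nlinarith
  -- the bound for the powers of the inverse
  have hinv : ∀ n : ℕ, β * n ≤ 1 / 4 → ((1 - β ^ 2 / 8)⁻¹) ^ n ≤ 1 + n * β ^ 2 / 4 := by
    intro n hn
    have hn0 : (0 : ℝ) ≤ n := Nat.cast_nonneg n
    have hx : (n : ℝ) * β ^ 2 / 8 ≤ 1 / 128 := by nlinarith
    have hb : 1 + (n : ℝ) * (-(β ^ 2 / 8)) ≤ (1 + -(β ^ 2 / 8)) ^ n :=
      one_add_mul_le_pow (by nlinarith) n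
    have hp : 0 < (1 - β ^ 2 / 8) ^ n := pow_pos hη n
    rw [inv_pow, inv_le_iff_one_le_mul₀ hp]
    have hb' : 1 - n * β ^ 2 / 8 ≤ (1 - β ^ 2 / 8) ^ n := by
      have e : (1 + -(β ^ 2 / 8)) = 1 - β ^ 2 / 8 := by ring
      rw [e] at hb
      linarith
    have hq : 0 ≤ (n : ℝ) * β ^ 2 / 8 := by positivity
    nlinarith
  have i1 := hinv a haβ
  have i2 := hinv Δ h1
  have i3 : (1 - β) * ((1 - β ^ 2 / 8)⁻¹) ^ Δ ≤ 1 - β / 2 := by
    have : (Δ : ℝ) * β ^ 2 / 4 ≤ β / 16 := by nlinarith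
    have h2 : (1 - β) * ((1 - β ^ 2 / 8)⁻¹) ^ Δ ≤ (1 - β) * (1 + Δ * β ^ 2 / 4) :=
      mul_le_mul_of_nonneg_left i2 (by linarith)
    nlinarith
  have i4 : 0 ≤ (1 - β) * ((1 - β ^ 2 / 8)⁻¹) ^ Δ :=
    mul_nonneg (by linarith) (pow_nonneg (inv_nonneg.2 hη.le) _)
  have i5 : ((1 - β) * ((1 - β ^ 2 / 8)⁻¹) ^ Δ) ^ a ≤ (1 - β / 2) ^ a :=
    pow_le_pow_left₀ i4 i3 a
  have i6 : (1 - β / 2) ^ a ≤ 1 - a * β / 4 := by
    have hb : 1 + (a : ℝ) * (β / 2) ≤ (1 + β / 2) ^ a :=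
      one_add_mul_le_pow (by linarith) a
    have hm : (1 - β / 2) ^ a * (1 + β / 2) ^ a ≤ 1 := by
      rw [← mul_pow]
      exact pow_le_one₀ (by nlinarith) (by nlinarith)
    have hp0 : 0 ≤ (1 - β / 2) ^ a := pow_nonneg (by linarith) a
    have h3 : (1 - β / 2) ^ a * (1 + a * (β / 2)) ≤ 1 :=
      (mul_le_mul_of_nonneg_left hb hp0).trans hm
    have h4 : 0 < 1 + (a : ℝ) * (β / 2) := by positivity
    have h5 : 1 ≤ (1 - a * β / 4) * (1 + a * (β / 2)) := by nlinarith [mul_nonneg ha0 h0]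
    have h6 : (1 - β / 2) ^ a * (1 + a * (β / 2)) ≤ (1 - a * β / 4) * (1 + a * (β / 2)) :=
      h3.trans h5
    exact le_of_mul_le_mul_right h6 h4
  have i7 : (1 - β) * ((1 - β ^ 2 / 8)⁻¹) ^ a ≤ (1 - β) * (1 + a * β ^ 2 / 4) :=
    mul_le_mul_of_nonneg_left i1 (by linarith)
  have i8 : β * ((1 - β) * ((1 - β ^ 2 / 8)⁻¹) ^ Δ) ^ a ≤ β * (1 - a * β / 4) :=
    mul_le_mul_of_nonneg_left (i5.trans i6) h0
  have i9 : 0 ≤ (a : ℝ) * β ^ 3 := by positivity
  nlinarith

/-- the weight of `Z` as a subset of `T` -/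
noncomputable def wZ (β : ℝ) (T Z : Finset C) : ℝ := ∏ c ∈ T, if c ∈ Z then β else 1 - β

theorem hit_bound (β : ℝ) (Δ : ℕ) (h0 : 0 ≤ β) (h1 : β * Δ ≤ 1 / 4) (hβ : β ≤ 1 / 4)
    (T : Finset C) : ∀ S : Finset (I × C), (∀ d ∈ S, d.2 ∈ T) →
      (∀ i, (S.filter fun d => d.1 = i).card ≤ Δ) → (∀ c, (S.filter fun d => d.2 = c).card ≤ Δ) →
      ∑ Z ∈ T.powerset, wZ β T Z * (1 - β) ^ (hit S Z).card ≤ (1 - β ^ 2 / 8) ^ S.card := by
  have hη : 0 < 1 - β ^ 2 / 8 := by nlinarith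
  have hη1 : 1 - β ^ 2 / 8 ≤ 1 := by nlinarith
  induction T using Finset.induction_on with
  | empty =>
    intro S hS _ _
    have hS0 : S = ∅ := by
      rw [eq_empty_iff_forall_notMem]
      intro d hd
      exact absurd (hS d hd) (notMem_empty _)
    subst hS0
    simp [wZ, hit]
  | insert c T hc ih =>
    intro S hS hr hcol
    obtain ⟨N, hN⟩ : ∃ N, N = (S.filter fun d => d.2 = c).image Prod.fst := ⟨_, rfl⟩
    obtain ⟨S₀, hS₀⟩ : ∃ S₀, S₀ = S.filter fun d => d.2 ≠ c := ⟨_, rfl⟩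
    obtain ⟨S₁, hS₁⟩ : ∃ S₁, S₁ = S₀.filter fun d => d.1 ∉ N := ⟨_, rfl⟩
    have hNmem : ∀ i, i ∈ N ↔ (i, c) ∈ S := by
      intro i
      rw [hN, mem_image]
      constructor
      · rintro ⟨⟨i', c'⟩, h, rfl⟩
        obtain ⟨h2, h3⟩ := mem_filter.1 h
        simp only at h3
        rw [h3] at h2
        exact h2
      · intro h
        exact ⟨(i, c), mem_filter.2 ⟨h, rfl⟩, rfl⟩
    have hNc : N.card = (S.filter fun d => d.2 = c).card := by
      rw [hN]
      refine card_image_of_injOn ?_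
      intro d hd d' hd' he
      have h2 := (mem_filter.1 (mem_coe.1 hd)).2
      have h3 := (mem_filter.1 (mem_coe.1 hd')).2
      exact Prod.ext he (h2.trans h3.symm)
    have haΔ : N.card ≤ Δ := by
      rw [hNc]
      exact hcol c
    have hcard0 : S.card = S₀.card + N.card := by
      rw [hS₀, hNc, add_comm]
      exact (card_filter_add_card_filter_not (s := S) (fun d => d.2 = c)).symm
    have hcard1 : S.card ≤ S₁.card + N.card * Δ := by
      have h2 : S ⊆ S₁ ∪ N.biUnion fun i => S.filter fun d => d.1 = i := by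
        intro d hd
        rw [mem_union, mem_biUnion]
        by_cases h5 : d.1 ∈ N
        · exact Or.inr ⟨d.1, h5, mem_filter.2 ⟨hd, rfl⟩⟩
        · left
          rw [hS₁, mem_filter, hS₀, mem_filter]
          refine ⟨⟨hd, ?_⟩, h5⟩
          intro h6
          apply h5
          rw [hNmem, ← h6]
          exact hd
      refine (card_le_card h2).trans ((card_union_le _ _).trans ?_)
      refine Nat.add_le_add_left ?_ _
      refine card_biUnion_le.trans ?_
      calc ∑ i ∈ N, (S.filter fun d => d.1 = i).card ≤ ∑ _i ∈ N, Δ :=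
            sum_le_sum fun i _ => hr i
        _ = N.card * Δ := by rw [sum_const, smul_eq_mul]
    have hsub0 : S₀ ⊆ S := by rw [hS₀]; exact filter_subset _ _
    have hsub1 : S₁ ⊆ S := by rw [hS₁]; exact (filter_subset _ _).trans hsub0
    have hT0 : ∀ d ∈ S₀, d.2 ∈ T := by
      intro d hd
      rw [hS₀] at hd
      obtain ⟨h2, h3⟩ := mem_filter.1 hd
      rcases mem_insert.1 (hS d h2) with h4 | h4
      · exact absurd h4 h3
      · exact h4
    have hT1 : ∀ d ∈ S₁, d.2 ∈ T := by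
      intro d hd
      rw [hS₁] at hd
      exact hT0 d (mem_filter.1 hd).1
    have hmono : ∀ (S' : Finset (I × C)) (P : I × C → Prop) [DecidablePred P], S' ⊆ S →
        (S'.filter P).card ≤ (S.filter P).card := fun S' P _ h =>
      card_le_card (filter_subset_filter _ h)
    have ih0 := ih S₀ hT0 (fun i => (hmono S₀ _ hsub0).trans (hr i))
      (fun i => (hmono S₀ _ hsub0).trans (hcol i))
    have ih1 := ih S₁ hT1 (fun i => (hmono S₁ _ hsub1).trans (hr i))
      (fun i => (hmono S₁ _ hsub1).trans (hcol i))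
    rw [sum_powerset_insert hc]
    have hterm0 : ∀ Z ∈ T.powerset, wZ β (insert c T) Z * (1 - β) ^ (hit S Z).card =
        (1 - β) * (wZ β T Z * (1 - β) ^ (hit S₀ Z).card) := by
      intro Z hZ
      have hcZ : c ∉ Z := fun h => hc (mem_powerset.1 hZ h)
      have h2 : hit S Z = hit S₀ Z := by
        ext i
        rw [mem_hit, mem_hit]
        constructor
        · rintro ⟨c', h3, h4⟩
          refine ⟨c', ?_, h4⟩
          rw [hS₀, mem_filter]
          exact ⟨h3, fun h5 => hcZ (by rw [← h5]; exact h4)⟩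
        · rintro ⟨c', h3, h4⟩
          exact ⟨c', hsub0 h3, h4⟩
      rw [h2]
      unfold wZ
      rw [prod_insert hc, if_neg hcZ]
      ring
    have hterm1 : ∀ Z ∈ T.powerset, wZ β (insert c T) (insert c Z) *
        (1 - β) ^ (hit S (insert c Z)).card =
        β * (1 - β) ^ N.card * (wZ β T Z * (1 - β) ^ (hit S₁ Z).card) := by
      intro Z hZ
      have h2 : hit S (insert c Z) = N ∪ hit S₁ Z := by
        ext i
        rw [mem_hit, mem_union, hNmem, mem_hit]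
        constructor
        · rintro ⟨c', h3, h4⟩
          rcases mem_insert.1 h4 with h5 | h5
          · left
            rw [← h5]
            exact h3
          · by_cases h6 : (i, c) ∈ S
            · exact Or.inl h6
            · right
              refine ⟨c', ?_, h5⟩
              rw [hS₁, mem_filter, hS₀, mem_filter, hNmem]
              refine ⟨⟨h3, ?_⟩, h6⟩
              intro h7
              have h8 : c ∈ Z := by rw [← h7]; exact h5
              exact hc (mem_powerset.1 hZ h8)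
        · rintro (h3 | ⟨c', h3, h4⟩)
          · exact ⟨c, h3, mem_insert_self _ _⟩
          · exact ⟨c', hsub1 h3, mem_insert_of_mem h4⟩
      have h3 : Disjoint N (hit S₁ Z) := by
        rw [disjoint_left]
        intro i hi h4
        rw [mem_hit] at h4
        obtain ⟨c', h5, _⟩ := h4
        rw [hS₁, mem_filter] at h5
        exact h5.2 hi
      rw [h2, card_union_of_disjoint h3, pow_add]
      unfold wZ
      rw [prod_insert hc, if_pos (mem_insert_self _ _)]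
      have h4 : ∏ c' ∈ T, (if c' ∈ insert c Z then β else 1 - β) =
          ∏ c' ∈ T, (if c' ∈ Z then β else 1 - β) := by
        refine prod_congr rfl fun c' hc' => ?_
        have h5 : c' ≠ c := fun h => hc (by rw [← h]; exact hc')
        have h6 : (c' ∈ insert c Z) = (c' ∈ Z) := by
          rw [mem_insert]
          exact propext ⟨fun h => h.resolve_left h5, Or.inr⟩
        simp only [h6]
      rw [h4]
      ring
    rw [sum_congr rfl hterm0, sum_congr rfl hterm1, ← mul_sum, ← mul_sum]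
    have hβ1 : 0 ≤ 1 - β := by linarith
    have hinv0 : 0 < (1 - β ^ 2 / 8)⁻¹ := inv_pos.2 hη
    have hinv1 : 1 ≤ (1 - β ^ 2 / 8)⁻¹ := (one_le_inv₀ hη).2 hη1
    have hcancel : ∀ n : ℕ, (1 - β ^ 2 / 8) ^ n * ((1 - β ^ 2 / 8)⁻¹) ^ n = 1 := by
      intro n
      rw [← mul_pow, mul_inv_cancel₀ hη.ne', one_pow]
    have j0 : (1 - β ^ 2 / 8) ^ S₀.card =
        (1 - β ^ 2 / 8) ^ S.card * ((1 - β ^ 2 / 8)⁻¹) ^ N.card := by
      rw [hcard0, pow_add, mul_assoc, hcancel, mul_one]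
    have j1 : (1 - β ^ 2 / 8) ^ S₁.card ≤
        (1 - β ^ 2 / 8) ^ S.card * (((1 - β ^ 2 / 8)⁻¹) ^ Δ) ^ N.card := by
      have e2 : (1 - β ^ 2 / 8) ^ (S₁.card + N.card * Δ) ≤ (1 - β ^ 2 / 8) ^ S.card :=
        pow_le_pow_of_le_one hη.le hη1 hcard1
      have e3 : (((1 - β ^ 2 / 8)⁻¹) ^ Δ) ^ N.card =
          ((1 - β ^ 2 / 8)⁻¹) ^ (N.card * Δ) := by
        rw [← pow_mul, mul_comm]
      rw [e3]
      calc (1 - β ^ 2 / 8) ^ S₁.card = (1 - β ^ 2 / 8) ^ (S₁.card + N.card * Δ) *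
            ((1 - β ^ 2 / 8)⁻¹) ^ (N.card * Δ) := by
              rw [pow_add, mul_assoc, hcancel, mul_one]
        _ ≤ _ := mul_le_mul_of_nonneg_right e2 (pow_nonneg hinv0.le _)
    have j2 := key β Δ N.card h0 h1 hβ haΔ
    have hS0 : 0 ≤ (1 - β ^ 2 / 8) ^ S.card := pow_nonneg hη.le _
    calc (1 - β) * ∑ Z ∈ T.powerset, wZ β T Z * (1 - β) ^ (hit S₀ Z).card +
          β * (1 - β) ^ N.card * ∑ Z ∈ T.powerset, wZ β T Z * (1 - β) ^ (hit S₁ Z).card
        ≤ (1 - β) * (1 - β ^ 2 / 8) ^ S₀.card +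
          β * (1 - β) ^ N.card * (1 - β ^ 2 / 8) ^ S₁.card :=
          add_le_add (mul_le_mul_of_nonneg_left ih0 hβ1)
            (mul_le_mul_of_nonneg_left ih1 (mul_nonneg h0 (pow_nonneg hβ1 _)))
      _ ≤ (1 - β) * ((1 - β ^ 2 / 8) ^ S.card * ((1 - β ^ 2 / 8)⁻¹) ^ N.card) +
          β * (1 - β) ^ N.card *
            ((1 - β ^ 2 / 8) ^ S.card * (((1 - β ^ 2 / 8)⁻¹) ^ Δ) ^ N.card) :=
          add_le_add (by rw [j0]) (mul_le_mul_of_nonneg_left j1
            (mul_nonneg h0 (pow_nonneg hβ1 _)))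
      _ = (1 - β ^ 2 / 8) ^ S.card * ((1 - β) * ((1 - β ^ 2 / 8)⁻¹) ^ N.card +
          β * ((1 - β) * ((1 - β ^ 2 / 8)⁻¹) ^ Δ) ^ N.card) := by
          rw [mul_pow]
          ring
      _ ≤ (1 - β ^ 2 / 8) ^ S.card * 1 := mul_le_mul_of_nonneg_left j2 hS0
      _ = _ := mul_one _

end Pool.Agent.H701.TJ
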