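import Pool.Agent.H701.TJ.Core

set_option autoImplicit false

/-!
# The core theorem for `t` adaptive joint probes
-/

namespace Pool.Agent.H701.TJ

open Finset
open Pool.Agent.Y516.OJ (Prot Fam Disj EE ind LeafStm HolStm nErr nInt wt Wt)
open Pool.Agent.Y502.OJ (EE_mono EE_one EE_add EE_mul EE_sum EE_notDisj card_eq_sum)

/-- the numerical inequality for one selected set of queries -/
theorem expo (m B q r : ℕ) (hB : 1 ≤ B) (hq : q = 5000 * B + 1) (hr : r = m / 10000) :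
    (2 : ℝ) ^ r * ((1 + 399 / 400) / 2) ^ ((m : ℝ) / 2 - r) *
      ((2 : ℝ) ^ (B * m)) ^ (1 / ((q : ℝ) - 1)) ≤ Real.exp (-((m : ℝ) / 2500)) := by
  have hB0 : (0 : ℝ) < B := by exact_mod_cast hB
  have hf : (r : ℝ) ≤ (m : ℝ) / 10000 := by
    rw [hr]
    have := Nat.cast_div_le (α := ℝ) (m := m) (n := 10000)
    push_cast at this
    exact this
  have hf0 : (0 : ℝ) ≤ (r : ℝ) := Nat.cast_nonneg _
  have hm0 : (0 : ℝ) ≤ (m : ℝ) := Nat.cast_nonneg _
  have e1 : (2 : ℝ) ^ r = Real.exp (Real.log 2 * r) := by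
    rw [← Real.rpow_natCast, Real.rpow_def_of_pos (by norm_num)]
  have e2 : ((1 + 399 / 400) / 2 : ℝ) ^ ((m : ℝ) / 2 - r) =
      Real.exp (Real.log (799 / 800) * ((m : ℝ) / 2 - r)) := by
    rw [Real.rpow_def_of_pos (by norm_num)]
    norm_num
  have e3 : ((2 : ℝ) ^ (B * m)) ^ (1 / ((q : ℝ) - 1)) = Real.exp (Real.log 2 * ((m : ℝ) / 5000)) := by
    rw [← Real.rpow_natCast, ← Real.rpow_mul (by norm_num), Real.rpow_def_of_pos (by norm_num)]
    congr 2
    rw [hq]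
    push_cast
    field_simp
    ring
  rw [e1, e2, e3, ← Real.exp_add, ← Real.exp_add]
  apply Real.exp_le_exp.2
  have l1 : Real.log 2 < 0.6932 := lt_trans Real.log_two_lt_d9 (by norm_num)
  have l0 : 0 < Real.log 2 := Real.log_pos (by norm_num)
  have l2 : Real.log (799 / 800) ≤ -(1 / 800) := by
    have := Real.log_le_sub_one_of_pos (show (0 : ℝ) < 799 / 800 by norm_num)
    linarith
  have h1 : Real.log (799 / 800) * ((m : ℝ) / 2 - r) ≤ -(1 / 800) * ((m : ℝ) / 2 - r) :=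
    mul_le_mul_of_nonneg_right l2 (by linarith)
  have h2 : Real.log 2 * r ≤ 0.6932 * ((m : ℝ) / 10000) :=
    mul_le_mul l1.le hf hf0 (by norm_num)
  have h3 : Real.log 2 * ((m : ℝ) / 5000) ≤ 0.6932 * ((m : ℝ) / 5000) :=
    mul_le_mul_of_nonneg_right l1.le (by positivity)
  norm_num at h1 h2 h3 hf ⊢
  linarith

theorem main_core (hL : LeafStm) (hH : HolStm) (u k s w b t K L Gm Δ l B q : ℕ) (g : ℕ → ℕ)
    (α m₀ P : ℝ) (ht : 1 ≤ t) (hk : 1 ≤ k) (hB : B = l + w * t + b) (hB1 : 1 ≤ B)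
    (hq : q = 5000 * B + 1) (hK : K = 300 * t ^ 3)
    (hg : ∀ i < t, 1 ≤ g i) (hGm : ∀ i < t, g i ≤ Gm) (hs : ∀ i < t, s ≤ g i * L)
    (hP : P = ((∏ i ∈ range t, g i : ℕ) : ℝ)) (hKP : K * ∏ i ∈ range t, g i ≤ k)
    (hl : k * k ≤ 2 ^ l) (hα : 0 < α) (hα1 : α ≤ 1) (h1 : (q : ℝ) * α * Δ ≤ 1 / 4)
    (h2 : (q : ℝ) * α ≤ 1 / 4) (hρ : Real.exp (-(α ^ 2 * u / 32)) ≤ 399 / 400)
    (huα : (u : ℝ) * (α * α) ≤ 1 / 8) (hΔ : 3 * k / P ≤ Δ) (hm₀ : m₀ = 2 / 5 * k ^ 2 / P)
    (hnum : (((Gm * 2 ^ w) ^ (k * K + L)) ^ t : ℝ) * ((k : ℝ) * k + 1) *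
      Real.exp (-(m₀ / 2500)) < 1 / 2)
    (J : Fam u k → Fam u k → Fin s → Fin (2 ^ w))
    (addr : Fin k × Fin k → Fam u k → List (Fin (2 ^ w)) → Fin s)
    (query : Fin k × Fin k → List (Fin (2 ^ w)) → Prot (Fam u k) (Fam u k))
    (hdep : ∀ d v, (query d v).depth ≤ b)
    (herr : ∑ d, EE α (fun X Y => ind (¬ ((query d (tr J addr X Y d t)).run X Y = true ↔
      ¬ Disj X Y d))) ≤ (k : ℝ) ^ 2 / 10 ^ 6) : False := by
  classical
  have ht0 : (0 : ℝ) < t := by exact_mod_cast ht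
  have hk0 : (0 : ℝ) < k := by exact_mod_cast hk
  have hK1 : 1 ≤ K := by
    rw [hK]
    exact Nat.mul_pos (by norm_num) (Nat.pow_pos ht)
  have hK0 : (0 : ℝ) < K := by exact_mod_cast hK1
  have hP0 : 0 < P := by
    rw [hP]
    have : 0 < ∏ i ∈ range t, g i := Nat.pos_of_ne_zero (prod_ne_zero_iff.2 fun i hi => by
        have := hg i (mem_range.1 hi)
        omega)
    exact_mod_cast this
  obtain ⟨Adv, iAdv, D, H, hcard, hAdv⟩ := sim J addr t K L Gm g ht hk hK1 hg hGm hs hKP t le_rfl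
  rw [← hP] at hAdv
  obtain ⟨Wr, hWr⟩ : ∃ Wr : Fin k × Fin k → Fam u k → Fam u k → ℝ, Wr = fun d X Y =>
    ind (¬ ((query d (tr J addr X Y d t)).run X Y = true ↔ ¬ Disj X Y d)) := ⟨_, rfl⟩
  obtain ⟨In, hIn⟩ : ∃ In : Fin k × Fin k → Fam u k → Fam u k → ℝ, In = fun d X Y =>
    ind (¬ Disj X Y d) := ⟨_, rfl⟩
  have hWr0 : ∀ i X Y, 0 ≤ Wr i X Y := fun i X Y => by rw [hWr]; exact ind_nn _
  have hIn0 : ∀ i X Y, 0 ≤ In i X Y := fun i X Y => by rw [hIn]; exact ind_nn _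
  obtain ⟨Z, hZ⟩ : ∃ Z : Fam u k → Fam u k → ℝ, Z = fun X Y =>
    10 ^ 4 * ∑ d, Wr d X Y + 2 * ∑ d, In d X Y := ⟨_, rfl⟩
  obtain ⟨Gd, hGd⟩ : ∃ Gd : Adv → ℕ → Fam u k → Fam u k → ℝ, Gd = fun a m X Y =>
    ind ((D a X).card = m ∧ DegN (D a X) Δ ∧ (∀ d ∈ D a X, (H a X d).length = t) ∧
      nErr (D a X) (fun d => query d (H a X d)) X Y ≤ m / 10000 ∧
      2 * nInt (D a X) X Y ≤ m) := ⟨_, rfl⟩
  have hGd0 : ∀ a m X Y, 0 ≤ Gd a m X Y := fun a m X Y => by rw [hGd]; exact ind_nn _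
  have hm₀0 : 0 < m₀ := by
    rw [hm₀]
    positivity
  -- the pointwise inequality
  have hpt : ∀ X Y, (1 : ℝ) ≤ ∑ a, ∑ m ∈ (range (k * k + 1)).filter (fun m : ℕ => m₀ ≤ (m : ℝ)),
      Gd a m X Y + 25 / (13 * (k : ℝ) ^ 2) * Z X Y := by
    intro X Y
    have hnn : ∀ a, 0 ≤ ∑ m ∈ (range (k * k + 1)).filter (fun m : ℕ => m₀ ≤ (m : ℝ)),
        Gd a m X Y := fun a => sum_nonneg fun m _ => hGd0 a m X Y
    have hZ0 : 0 ≤ Z X Y := by
      rw [hZ]
      exact add_nonneg (mul_nonneg (by norm_num) (sum_nonneg fun d _ => hWr0 d X Y))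
        (mul_nonneg (by norm_num) (sum_nonneg fun d _ => hIn0 d X Y))
    by_cases hbig : 13 / 25 * (k : ℝ) ^ 2 ≤ Z X Y
    · have e1 : 1 ≤ 25 / (13 * (k : ℝ) ^ 2) * Z X Y := by
        rw [div_mul_eq_mul_div, one_le_div (by positivity)]
        linarith
      have e2 : 0 ≤ ∑ a, ∑ m ∈ (range (k * k + 1)).filter (fun m : ℕ => m₀ ≤ (m : ℝ)),
        Gd a m X Y := sum_nonneg fun a _ => hnn a
      linarith
    · push Not at hbig
      obtain ⟨φ, hφ⟩ : ∃ φ : Fin k × Fin k → ℝ, φ = fun d =>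
        1 - 10 ^ 4 * Wr d X Y - 2 * In d X Y := ⟨_, rfl⟩
      have hφ1 : ∀ d, φ d ≤ 1 := by
        intro d
        rw [hφ]
        have := hWr0 d X Y
        have := hIn0 d X Y
        simp only
        linarith
      have hφs : ∀ S : Finset (Fin k × Fin k), ∑ d ∈ S, φ d = S.card -
          10 ^ 4 * ∑ d ∈ S, Wr d X Y - 2 * ∑ d ∈ S, In d X Y := by
        intro S
        rw [hφ]
        simp only
        rw [sum_sub_distrib, sum_sub_distrib, ← mul_sum, ← mul_sum, sum_const, nsmul_eq_mul,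
          mul_one]
      obtain ⟨a, ha1, ha2, ha3⟩ := hAdv X Y φ hφ1
      have hsum : 12 / 25 * (k : ℝ) ^ 2 ≤ ∑ d, φ d := by
        rw [hφs, card_univ, Fintype.card_prod, Fintype.card_fin]
        rw [hZ] at hbig
        push_cast
        simp only at hbig
        nlinarith
      have hKt : (K : ℝ) = 300 * t ^ 3 := by
        rw [hK]
        push_cast
        ring
      have hloss : (t : ℝ) * (24 * (t : ℝ) ^ 2 * (k : ℝ) ^ 2 / (K * P)) =
          2 / 25 * k ^ 2 / P := by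
        rw [hKt]
        field_simp
        ring
      have hlow : m₀ ≤ ∑ d ∈ D a X, φ d := by
        refine le_trans ?_ ha3
        rw [hloss, hm₀, ← sub_div]
        refine div_le_div_of_nonneg_right ?_ hP0.le
        linarith
      have hW0 : 0 ≤ ∑ d ∈ D a X, Wr d X Y := sum_nonneg fun d _ => hWr0 d X Y
      have hI0 : 0 ≤ ∑ d ∈ D a X, In d X Y := sum_nonneg fun d _ => hIn0 d X Y
      rw [hφs] at hlow
      obtain ⟨m, hm⟩ : ∃ m, m = (D a X).card := ⟨_, rfl⟩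
      rw [← hm] at hlow
      have hmm : m₀ ≤ (m : ℝ) := by linarith
      have hmk : m ≤ k * k := by
        rw [hm]
        refine (card_le_univ _).trans ?_
        rw [Fintype.card_prod, Fintype.card_fin]
      have e1 : (nErr (D a X) (fun d => query d (H a X d)) X Y : ℝ) =
          ∑ d ∈ D a X, Wr d X Y := by
        unfold nErr
        rw [card_eq_sum]
        refine sum_congr rfl fun d hd => ?_
        rw [hWr]
        beta_reduce
        rw [ha1 d hd]
      have e2 : (nInt (D a X) X Y : ℝ) = ∑ d ∈ D a X, In d X Y := by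
        unfold nInt
        rw [card_eq_sum, hIn]
      have e3 : nErr (D a X) (fun d => query d (H a X d)) X Y ≤ m / 10000 := by
        rw [Nat.le_div_iff_mul_le (by norm_num)]
        have : (nErr (D a X) (fun d => query d (H a X d)) X Y : ℝ) * 10000 ≤ m := by
          rw [e1]
          linarith
        exact_mod_cast this
      have e4 : 2 * nInt (D a X) X Y ≤ m := by
        have : 2 * (nInt (D a X) X Y : ℝ) ≤ m := by
          rw [e2]
          linarith
        exact_mod_cast this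
      have e5 : DegN (D a X) Δ := by
        have h5 : (k : ℝ) * (1 + 1 / (t : ℝ)) ^ t / P ≤ Δ := by
          refine le_trans (div_le_div_of_nonneg_right ?_ hP0.le) hΔ
          have := pow_le_three ht (le_refl t)
          nlinarith
        exact ⟨fun i => by exact_mod_cast (ha2.1 i).trans h5,
          fun i => by exact_mod_cast (ha2.2 i).trans h5⟩
      have e6 : ∀ d ∈ D a X, (H a X d).length = t := by
        intro d hd
        rw [ha1 d hd]
        exact tr_length J addr X Y d t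
      have e7 : Gd a m X Y = 1 := by
        rw [hGd]
        exact ind_true ⟨hm.symm, e5, e6, e3, e4⟩
      have e8 : Gd a m X Y ≤ ∑ m ∈ (range (k * k + 1)).filter (fun m : ℕ => m₀ ≤ (m : ℝ)),
          Gd a m X Y :=
        single_le_sum (f := fun m => Gd a m X Y) (fun m _ => hGd0 a m X Y)
          (mem_filter.2 ⟨mem_range.2 (by omega), hmm⟩)
      have e9 : ∑ m ∈ (range (k * k + 1)).filter (fun m : ℕ => m₀ ≤ (m : ℝ)), Gd a m X Y ≤
          ∑ a, ∑ m ∈ (range (k * k + 1)).filter (fun m : ℕ => m₀ ≤ (m : ℝ)), Gd a m X Y :=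
        single_le_sum (f := fun a => ∑ m ∈ (range (k * k + 1)).filter
          (fun m : ℕ => m₀ ≤ (m : ℝ)), Gd a m X Y) (fun a _ => hnn a) (mem_univ a)
      have e10 : 0 ≤ 25 / (13 * (k : ℝ) ^ 2) * Z X Y := mul_nonneg (by positivity) hZ0
      linarith
  -- the expectations
  have hE := EE_mono hα.le hα1 hpt
  rw [EE_one, EE_add, EE_sum, EE_mul] at hE
  have hEZ : EE α Z ≤ 13 / 50 * k ^ 2 := by
    rw [hZ, EE_add, EE_mul, EE_mul, EE_sum, EE_sum]
    have b2 : ∑ d, EE α (Wr d) ≤ (k : ℝ) ^ 2 / 10 ^ 6 := by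
      rw [hWr]
      exact herr
    have b3 : ∑ d : Fin k × Fin k, EE α (In d) ≤ k ^ 2 * (1 / 8) := by
      calc ∑ d : Fin k × Fin k, EE α (In d) ≤ ∑ _d : Fin k × Fin k, (1 / 8 : ℝ) := by
            refine sum_le_sum fun i _ => ?_
            rw [hIn]
            exact (EE_notDisj hα.le hα1 i).trans huα
        _ = k ^ 2 * (1 / 8) := by
            rw [sum_const, card_univ, Fintype.card_prod, Fintype.card_fin, nsmul_eq_mul]
            push_cast
            ring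
    linarith
  have hZ2 : 25 / (13 * (k : ℝ) ^ 2) * EE α Z ≤ 1 / 2 := by
    calc 25 / (13 * (k : ℝ) ^ 2) * EE α Z ≤ 25 / (13 * (k : ℝ) ^ 2) * (13 / 50 * k ^ 2) :=
          mul_le_mul_of_nonneg_left hEZ (by positivity)
      _ = 1 / 2 := by
          field_simp
          ring
  have hG : ∀ a, ∀ m ∈ (range (k * k + 1)).filter (fun m : ℕ => m₀ ≤ (m : ℝ)),
      EE α (Gd a m) ≤ Real.exp (-(m₀ / 2500)) := by
    intro a m hm
    have hm2 := (mem_filter.1 hm).2
    have c1 := one_adv (m := m) (r := m / 10000) (t := t) hL hH hα hα1 (by omega) h1 h2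
      (by norm_num) hρ hl (D a) (H a) query hdep
    rw [hGd]
    refine c1.trans ?_
    rw [← hB]
    refine (expo m B q (m / 10000) hB1 hq rfl).trans ?_
    apply Real.exp_le_exp.2
    linarith
  have hfin : ∑ a, EE α (fun X Y => ∑ m ∈ (range (k * k + 1)).filter (fun m : ℕ => m₀ ≤ (m : ℝ)),
      Gd a m X Y) ≤ (((Gm * 2 ^ w) ^ (k * K + L)) ^ t : ℝ) * ((k : ℝ) * k + 1) *
      Real.exp (-(m₀ / 2500)) := by
    have c1 : ∀ a, EE α (fun X Y => ∑ m ∈ (range (k * k + 1)).filter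
        (fun m : ℕ => m₀ ≤ (m : ℝ)), Gd a m X Y) ≤ ((k : ℝ) * k + 1) *
        Real.exp (-(m₀ / 2500)) := by
      intro a
      rw [EE_sum]
      calc ∑ m ∈ (range (k * k + 1)).filter (fun m : ℕ => m₀ ≤ (m : ℝ)), EE α (Gd a m)
          ≤ ∑ _m ∈ (range (k * k + 1)).filter (fun m : ℕ => m₀ ≤ (m : ℝ)),
            Real.exp (-(m₀ / 2500)) := sum_le_sum fun m hm => hG a m hm
        _ = (((range (k * k + 1)).filter (fun m : ℕ => m₀ ≤ (m : ℝ))).card : ℝ) *
            Real.exp (-(m₀ / 2500)) := by rw [sum_const, nsmul_eq_mul]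
        _ ≤ ((k : ℝ) * k + 1) * Real.exp (-(m₀ / 2500)) := by
            refine mul_le_mul_of_nonneg_right ?_ (Real.exp_pos _).le
            have : ((range (k * k + 1)).filter (fun m : ℕ => m₀ ≤ (m : ℝ))).card ≤ k * k + 1 :=
              (card_filter_le _ _).trans (by rw [card_range])
            exact_mod_cast this
    calc ∑ a, EE α (fun X Y => ∑ m ∈ (range (k * k + 1)).filter
        (fun m : ℕ => m₀ ≤ (m : ℝ)), Gd a m X Y) ≤ ∑ _a : Adv, ((k : ℝ) * k + 1) *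
          Real.exp (-(m₀ / 2500)) := sum_le_sum fun a _ => c1 a
      _ = (Fintype.card Adv : ℝ) * (((k : ℝ) * k + 1) * Real.exp (-(m₀ / 2500))) := by
          rw [sum_const, card_univ, nsmul_eq_mul]
      _ ≤ (((Gm * 2 ^ w) ^ (k * K + L)) ^ t : ℝ) * (((k : ℝ) * k + 1) *
          Real.exp (-(m₀ / 2500))) := by
          refine mul_le_mul_of_nonneg_right ?_ (by positivity)
          exact_mod_cast hcard
      _ = _ := by ring
  linarith

end Pool.Agent.H701.TJ
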