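import Pool.Agent.H701.TJ.Main
import Pool.Graph.R_seed8.Y516.OJ.Final

set_option autoImplicit false

/-!
# Parameters
-/

namespace Pool.Agent.H701.TJ

open Finset
open Pool.Agent.Y516.OJ (Prot Fam Disj EE ind LeafStm HolStm nErr nInt wt Wt tot avg)

theorem exists_root (κ t : ℕ) (hκ : 1 ≤ κ) (ht : 1 ≤ t) :
    ∃ g, 1 ≤ g ∧ g ^ t ≤ κ ∧ κ < (g + 1) ^ t := by
  have hex : ∃ g, κ < (g + 1) ^ t := by
    refine ⟨κ, ?_⟩
    calc κ < (κ + 1) ^ 1 := by rw [pow_one]; omega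
      _ ≤ (κ + 1) ^ t := Nat.pow_le_pow_right (by omega) ht
  obtain ⟨g, hg⟩ : ∃ g, g = Nat.find hex := ⟨_, rfl⟩
  have h1 : κ < (g + 1) ^ t := by
    rw [hg]
    exact Nat.find_spec hex
  have h2 : 1 ≤ g := by
    by_contra h
    have h0 : g = 0 := by omega
    rw [h0] at h1
    simp at h1
    omega
  refine ⟨g, h2, ?_, h1⟩
  have h3 : ¬ κ < (g - 1 + 1) ^ t := Nat.find_min hex (by omega)
  rw [Nat.sub_add_cancel h2] at h3
  omega

theorem exists_factors (κ t : ℕ) (hκ : 1 ≤ κ) (ht : 1 ≤ t) :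
    ∃ (g : ℕ) (gs : ℕ → ℕ), 1 ≤ g ∧ κ < (g + 1) ^ t ∧ (∀ i, g ≤ gs i ∧ gs i ≤ g + 1) ∧
      ∏ i ∈ range t, gs i ≤ κ ∧ κ < 2 * ∏ i ∈ range t, gs i ∧ g ≤ ∏ i ∈ range t, gs i := by
  obtain ⟨g, hg1, hg2, hg3⟩ := exists_root κ t hκ ht
  have hex : ∃ x, κ < g ^ (t - x) * (g + 1) ^ x := ⟨t, by simpa using hg3⟩
  obtain ⟨x', hx'⟩ : ∃ x, x = Nat.find hex := ⟨_, rfl⟩
  have h1 : κ < g ^ (t - x') * (g + 1) ^ x' := by
    rw [hx']
    exact Nat.find_spec hex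
  have h2 : x' ≤ t := by
    rw [hx']
    exact Nat.find_min' hex (by simpa using hg3)
  have h3 : 1 ≤ x' := by
    by_contra h
    have h0 : x' = 0 := by omega
    rw [h0] at h1
    simp at h1
    omega
  obtain ⟨x, hx⟩ : ∃ x, x' = x + 1 := ⟨x' - 1, by omega⟩
  subst hx
  have h4 : ¬ κ < g ^ (t - x) * (g + 1) ^ x := Nat.find_min hex (by omega)
  have h5 : ∏ i ∈ range t, (if i < x then g + 1 else g) = g ^ (t - x) * (g + 1) ^ x := by
    rw [prod_ite, prod_const, prod_const]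
    have e1 : (range t).filter (fun i => i < x) = range x := by
      ext i
      simp only [mem_filter, mem_range]
      omega
    have e2 : ((range t).filter (fun i => ¬ i < x)).card = t - x := by
      have e3 := card_filter_add_card_filter_not (s := range t) (fun i => i < x)
      rw [e1, card_range, card_range] at e3
      omega
    rw [e1, e2, card_range, mul_comm]
  have h6 : κ < 2 * (g ^ (t - x) * (g + 1) ^ x) := by
    refine lt_of_lt_of_le h1 ?_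
    have e1 : t - x = t - (x + 1) + 1 := by omega
    rw [e1, pow_succ, pow_succ]
    calc g ^ (t - (x + 1)) * ((g + 1) ^ x * (g + 1)) ≤
        g ^ (t - (x + 1)) * ((g + 1) ^ x * (2 * g)) :=
          Nat.mul_le_mul_left _ (Nat.mul_le_mul_left _ (by omega))
      _ = _ := by ring
  have h7 : g ≤ g ^ (t - x) * (g + 1) ^ x := by
    calc g = g ^ 1 := (pow_one g).symm
      _ ≤ g ^ (t - x) := Nat.pow_le_pow_right hg1 (by omega)
      _ = g ^ (t - x) * 1 := (mul_one _).symm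
      _ ≤ g ^ (t - x) * (g + 1) ^ x := Nat.mul_le_mul_left _ (Nat.one_le_pow _ _ (by omega))
  refine ⟨g, fun i => if i < x then g + 1 else g, hg1, hg3, ?_, ?_, ?_, ?_⟩
  · intro i
    beta_reduce
    split_ifs <;> omega
  · rw [h5]
    omega
  · rw [h5]
    exact h6
  · rw [h5]
    exact h7

/-- the numerical inequality for the union bound -/
theorem num_ineq (t w l k G : ℕ) (ht : 1 ≤ t) (hw : 1 ≤ w) (hG : G ≤ 2 ^ l) (hk : 1 ≤ k)
    (hl : k * k ≤ 2 ^ l) (L : ℕ) (hL : L = k * (300 * t ^ 3)) :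
    (((G * 2 ^ w) ^ (k * (300 * t ^ 3) + L)) ^ t : ℝ) * ((k : ℝ) * k + 1) *
      Real.exp (-(2 / 5 * (k : ℝ) * (3 * 10 ^ 6 * (t ^ 4 * (w + l))) / 2500)) < 1 / 2 := by
  have ht1 : (1 : ℝ) ≤ t := by exact_mod_cast ht
  have hw1 : (1 : ℝ) ≤ w := by exact_mod_cast hw
  have hk1 : (1 : ℝ) ≤ k := by exact_mod_cast hk
  have hl0 : (0 : ℝ) ≤ l := Nat.cast_nonneg l
  have l1 : Real.log 2 < 0.6932 := lt_trans Real.log_two_lt_d9 (by norm_num)
  have l0 : 0 < Real.log 2 := Real.log_pos (by norm_num)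
  have e1 : (((G * 2 ^ w) ^ (k * (300 * t ^ 3) + L)) ^ t : ℝ) ≤
      Real.exp (Real.log 2 * (600 * (k * (t ^ 4 * (w + l))))) := by
    have f1 : (G : ℝ) * 2 ^ w ≤ 2 ^ (l + w) := by
      rw [pow_add]
      refine mul_le_mul_of_nonneg_right ?_ (by positivity)
      exact_mod_cast hG
    calc (((G * 2 ^ w) ^ (k * (300 * t ^ 3) + L)) ^ t : ℝ)
        ≤ ((2 ^ (l + w)) ^ (k * (300 * t ^ 3) + L)) ^ t :=
          pow_le_pow_left₀ (by positivity) (pow_le_pow_left₀ (by positivity) f1 _) _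
      _ = 2 ^ (600 * (k * (t ^ 4 * (w + l)))) := by
          rw [← pow_mul, ← pow_mul, hL]
          congr 1
          ring
      _ = Real.exp (Real.log 2 * ((600 * (k * (t ^ 4 * (w + l))) : ℕ) : ℝ)) := by
          rw [← Real.rpow_natCast, Real.rpow_def_of_pos (by norm_num)]
      _ = _ := by push_cast; ring_nf
  have e2 : (k : ℝ) * k + 1 ≤ Real.exp (Real.log 2 * (l + 1)) := by
    have f1 : (k : ℝ) * k ≤ 2 ^ l := by exact_mod_cast hl
    have f2 : (1 : ℝ) ≤ 2 ^ l := one_le_pow₀ (by norm_num)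
    calc (k : ℝ) * k + 1 ≤ 2 ^ (l + 1) := by
          rw [pow_succ]
          linarith
      _ = Real.exp (Real.log 2 * ((l + 1 : ℕ) : ℝ)) := by
          rw [← Real.rpow_natCast, Real.rpow_def_of_pos (by norm_num)]
      _ = _ := by push_cast; ring_nf
  have e3 : (1 : ℝ) / 2 = Real.exp (-Real.log 2) := by
    rw [Real.exp_neg, Real.exp_log (by norm_num)]
    norm_num
  obtain ⟨z, hz⟩ : ∃ z : ℝ, z = k * (t ^ 4 * (w + l)) := ⟨_, rfl⟩
  have hz1 : (w : ℝ) + l ≤ z := by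
    rw [hz]
    have ht4 : (1 : ℝ) ≤ (t : ℝ) ^ 4 := one_le_pow₀ ht1
    have : (0 : ℝ) ≤ w + l := by linarith
    calc (w : ℝ) + l = 1 * (1 * (w + l)) := by ring
      _ ≤ k * (t ^ 4 * (w + l)) :=
          mul_le_mul hk1 (mul_le_mul_of_nonneg_right ht4 this) (by positivity) (by linarith)
  have e4 : -(2 / 5 * (k : ℝ) * (3 * 10 ^ 6 * (t ^ 4 * (w + l))) / 2500) = -(480 * z) := by
    rw [hz]
    ring
  rw [← hz] at e1
  rw [e3, e4]
  calc (((G * 2 ^ w) ^ (k * (300 * t ^ 3) + L)) ^ t : ℝ) * ((k : ℝ) * k + 1) *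
      Real.exp (-(480 * z)) ≤ Real.exp (Real.log 2 * (600 * z)) * Real.exp (Real.log 2 * (l + 1)) *
        Real.exp (-(480 * z)) := by
        refine mul_le_mul_of_nonneg_right (mul_le_mul e1 e2 (by positivity)
          (Real.exp_pos _).le) (Real.exp_pos _).le
    _ = Real.exp (Real.log 2 * (600 * z) + Real.log 2 * (l + 1) + -(480 * z)) := by
        rw [Real.exp_add, Real.exp_add]
    _ < Real.exp (-Real.log 2) := by
        apply Real.exp_lt_exp.2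
        have f1 : Real.log 2 * (600 * z) ≤ 0.6932 * (600 * z) :=
          mul_le_mul_of_nonneg_right l1.le (by linarith)
        have f2 : Real.log 2 * (l + 1) ≤ 0.6932 * (l + 1) :=
          mul_le_mul_of_nonneg_right l1.le (by linarith)
        norm_num at f1 f2 l1 ⊢
        linarith

/-- **Master theorem** for `t` adaptive probes. -/
theorem master_t (N t w b l Λ B M : ℕ) (ht : 1 ≤ t) (hw : 1 ≤ w) (hl : N ^ 2 ≤ 2 ^ l)
    (hΛ : Λ = 3 * 10 ^ 6 * (t ^ 4 * (w + l))) (hB : B = l + w * t + b)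
    (hM : M = 2 * 10 ^ 11 * (t ^ 4 * (w + l)) * B) (hN : M * Λ ≤ 2 * N) :
    ∃ k, 1 ≤ k ∧ k * M ≤ 2 * N ∧ ∀ (s : ℕ) (Ω : Type) [Fintype Ω]
      (p : Ω → ℝ) (J : Ω → Fam (M ^ 2 / 8) k → Fam (M ^ 2 / 8) k → Fin s → Fin (2 ^ w))
      (addr : Ω → Fin k × Fin k → Fam (M ^ 2 / 8) k → List (Fin (2 ^ w)) → Fin s)
      (query : Ω → Fin k × Fin k → List (Fin (2 ^ w)) →
        Prot (Fam (M ^ 2 / 8) k) (Fam (M ^ 2 / 8) k)),
      (∀ ω, 0 ≤ p ω) → ∑ ω, p ω = 1 → (∀ ω d v, (query ω d v).depth ≤ b) →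
      (∀ X Y, tot X + tot Y ≤ N → ∀ d, 1 - 1 / (2 * 10 ^ 6) ≤
        ∑ ω, p ω * ind ((query ω d (tr (J ω) (addr ω) X Y d t)).run X Y = true ↔
          ¬ Disj X Y d)) →
      N ^ (t + 1) ≤ (2 * M * Λ) ^ (t + 1) * s ^ t := by
  obtain ⟨Z, hZ⟩ : ∃ Z, Z = t ^ 4 * (w + l) := ⟨_, rfl⟩
  rw [← hZ] at hΛ hM
  have hZ1 : 1 ≤ Z := by
    rw [hZ]
    exact Nat.mul_pos (Nat.pow_pos ht) (by omega)
  have hB1 : 1 ≤ B := by
    rw [hB]
    have : 1 ≤ w * t := Nat.mul_pos hw ht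
    omega
  have hΛ1 : 1 ≤ Λ := by
    rw [hΛ]
    exact Nat.mul_pos (by norm_num) hZ1
  have hZB : 1 ≤ Z * B := Nat.mul_pos hZ1 hB1
  have hM' : M = 2 * 10 ^ 11 * (Z * B) := by rw [hM]; ring
  have hM1 : 2 * 10 ^ 11 ≤ M := by
    rw [hM']
    exact Nat.le_mul_of_pos_right _ hZB
  obtain ⟨κ, hκ⟩ : ∃ κ, κ = 2 * N / (M * Λ) := ⟨_, rfl⟩
  have hMΛ : 0 < M * Λ := Nat.mul_pos (by omega) hΛ1
  have hκ1 : 1 ≤ κ := by
    rw [hκ, Nat.le_div_iff_mul_le hMΛ, one_mul]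
    exact hN
  have hκ2 : κ * (M * Λ) ≤ 2 * N := by
    rw [hκ]
    exact Nat.div_mul_le_self _ _
  have hκ3 : 2 * N < (κ + 1) * (M * Λ) := by
    rw [hκ, mul_comm (2 * N / (M * Λ) + 1)]
    exact Nat.lt_mul_div_succ (2 * N) hMΛ
  obtain ⟨g, gs, hg1, hg2, hgs, hP1, hP2, hgP⟩ := exists_factors κ t hκ1 ht
  obtain ⟨P, hP⟩ : ∃ P, P = ∏ i ∈ range t, gs i := ⟨_, rfl⟩
  rw [← hP] at hP1 hP2 hgP
  have hPpos : 1 ≤ P := by omega
  obtain ⟨k, hk⟩ : ∃ k, k = Λ * P := ⟨_, rfl⟩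
  have hk1 : 1 ≤ k := by
    rw [hk]
    exact Nat.mul_pos hΛ1 hPpos
  have hkM : k * M ≤ 2 * N := by
    calc k * M = P * (M * Λ) := by rw [hk]; ring
      _ ≤ κ * (M * Λ) := Nat.mul_le_mul_right _ hP1
      _ ≤ 2 * N := hκ2
  refine ⟨k, hk1, hkM, ?_⟩
  intro s Ω _ p J addr query hp hp1 hdep hgood
  have hkN : k ≤ N := by
    have h1 : k * 2 ≤ k * M := Nat.mul_le_mul_left _ (by omega)
    omega
  have hkl : k * k ≤ 2 ^ l := by
    calc k * k ≤ N * N := Nat.mul_le_mul hkN hkN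
      _ = N ^ 2 := by ring
      _ ≤ 2 ^ l := hl
  -- many cells
  have hs : g * (k * (300 * t ^ 3)) < s := by
    by_contra hcon
    push Not at hcon
    obtain ⟨ω, hω⟩ := avg (ι := Fin k × Fin k) 1 (5000 * (Z * B)) 4000 M k N le_rfl (by omega)
      rfl (by rw [hM']; ring) hk1 hkM Ω p hp hp1
      (fun ω X Y d => ((query ω d (tr (J ω) (addr ω) X Y d t)).run X Y = true ↔ ¬ Disj X Y d))
      hgood
    rw [Fintype.card_prod, Fintype.card_fin] at hω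
    have hMR : (2 * 10 ^ 11 : ℝ) ≤ M := by exact_mod_cast hM1
    have hM0 : (0 : ℝ) < M := lt_of_lt_of_le (by norm_num) hMR
    have hZR : (1 : ℝ) ≤ Z := by exact_mod_cast hZ1
    have hBR : (1 : ℝ) ≤ B := by exact_mod_cast hB1
    have hMeq : (M : ℝ) = 2 * 10 ^ 11 * (Z * B) := by exact_mod_cast hM'
    have hu : ((M ^ 2 / 8 : ℕ) : ℝ) = (M : ℝ) ^ 2 / 8 := by
      have h8 : 8 ∣ M ^ 2 := ⟨5 * 10 ^ 21 * (Z * B) ^ 2, by rw [hM']; ring⟩
      rw [Nat.cast_div_charZero h8]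
      push_cast
      ring
    have hgsl : ∀ i < t, 1 ≤ gs i := fun i _ => hg1.trans (hgs i).1
    have hG : g + 1 ≤ 2 ^ l := by
      have h2 : g + 1 ≤ k := by
        rw [hk, hΛ]
        have : 2 * P ≤ 3 * 10 ^ 6 * Z * P := Nat.mul_le_mul_right _ (by omega)
        omega
      have h3 : k ≤ k * k := Nat.le_mul_of_pos_left _ hk1
      omega
    have hPR : (0 : ℝ) < P := by exact_mod_cast hPpos
    have hkR : (k : ℝ) = Λ * P := by exact_mod_cast hk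
    have hΛR : (Λ : ℝ) = 3 * 10 ^ 6 * Z := by exact_mod_cast hΛ
    refine main_core Pool.Agent.Y606.OJ.Leaf.leaf Pool.Agent.Y606.OJ.Leaf.hol (M ^ 2 / 8) k s w b t
      (300 * t ^ 3) (k * (300 * t ^ 3)) (g + 1) (3 * Λ) l B (5000 * B + 1) gs (1 / (M : ℝ))
      (2 / 5 * k ^ 2 / P) P ht hk1 hB hB1 rfl rfl hgsl (fun i _ => (hgs i).2) ?_ (by rw [hP]) ?_ hkl
      (by positivity) ?_ ?_ ?_ ?_ ?_ ?_ rfl ?_ (J ω) (addr ω) (query ω) (hdep ω) ?_
    · intro i _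
      exact hcon.trans (Nat.mul_le_mul_right _ (hgs i).1)
    · rw [← hP, hk]
      refine Nat.mul_le_mul_right _ ?_
      rw [hΛ, hZ]
      have h1 : t ^ 3 ≤ t ^ 4 := Nat.pow_le_pow_right ht (by norm_num)
      have h2 : t ^ 4 ≤ t ^ 4 * (w + l) := Nat.le_mul_of_pos_right _ (by omega)
      omega
    · rw [div_le_one hM0]
      linarith
    · rw [hMeq]
      push_cast
      rw [hΛR, mul_one_div, div_mul_eq_mul_div, div_le_div_iff₀ (by positivity) (by norm_num)]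
      nlinarith [mul_le_mul_of_nonneg_left hBR (by linarith : (0 : ℝ) ≤ Z)]
    · rw [hMeq]
      push_cast
      rw [mul_one_div, div_le_div_iff₀ (by positivity) (by norm_num)]
      nlinarith [mul_le_mul_of_nonneg_right hZR (by linarith : (0 : ℝ) ≤ B)]
    · rw [hu]
      have e1 : -((1 / (M : ℝ)) ^ 2 * ((M : ℝ) ^ 2 / 8) / 32) = -(1 / 256) := by
        field_simp
        norm_num
      rw [e1, Real.exp_neg]
      have h := Real.add_one_le_exp (1 / 256 : ℝ)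
      refine (inv_anti₀ (by norm_num) h).trans ?_
      norm_num
    · rw [hu]
      have e1 : (M : ℝ) ^ 2 / 8 * (1 / M * (1 / M)) = 1 / 8 := by
        field_simp
      rw [e1]
    · push_cast
      rw [hkR]
      have e1 : 3 * ((Λ : ℝ) * P) / P = 3 * Λ := by
        field_simp
      rw [e1]
    · have e1 : 2 / 5 * (k : ℝ) ^ 2 / P = 2 / 5 * k * (3 * 10 ^ 6 * (t ^ 4 * (w + l))) := by
        have e2 : (Z : ℝ) = t ^ 4 * (w + l) := by exact_mod_cast hZ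
        rw [← e2, ← hΛR, sq, hkR]
        field_simp
      rw [e1]
      have := num_ineq t w l k (g + 1) ht hw hG hk1 hkl (k * (300 * t ^ 3)) rfl
      push_cast at this ⊢
      exact this
    · refine hω.trans (le_of_eq ?_)
      push_cast
      ring
  -- the conclusion
  have hs2 : g * k ≤ s := by
    have h1 : g * k * 1 ≤ g * k * (300 * t ^ 3) :=
      Nat.mul_le_mul_left _ (Nat.mul_pos (by norm_num) (Nat.pow_pos ht))
    have h2 : g * (k * (300 * t ^ 3)) = g * k * (300 * t ^ 3) := by ring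
    omega
  have h1 : κ + 1 ≤ 2 ^ t * g ^ t := by
    rw [← mul_pow]
    calc κ + 1 ≤ (g + 1) ^ t := hg2
      _ ≤ (2 * g) ^ t := Nat.pow_le_pow_left (by omega) t
  have h2 : N ≤ k * M := by
    have e1 : (κ + 1) * (M * Λ) ≤ 2 * P * (M * Λ) := Nat.mul_le_mul_right _ (by omega)
    have e2 : 2 * P * (M * Λ) = 2 * (k * M) := by rw [hk]; ring
    omega
  have h3 : N ≤ 2 ^ t * g ^ t * (M * Λ) := by
    have e1 : (κ + 1) * (M * Λ) ≤ 2 ^ t * g ^ t * (M * Λ) := Nat.mul_le_mul_right _ h1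
    omega
  calc N ^ (t + 1) = N ^ t * N := pow_succ _ _
    _ ≤ (k * M) ^ t * (2 ^ t * g ^ t * (M * Λ)) :=
        Nat.mul_le_mul (Nat.pow_le_pow_left h2 t) h3
    _ = 2 ^ t * M ^ (t + 1) * Λ * (g * k) ^ t := by
        rw [mul_pow, mul_pow, pow_succ]
        ring
    _ ≤ 2 ^ t * M ^ (t + 1) * Λ * s ^ t :=
        Nat.mul_le_mul_left _ (Nat.pow_le_pow_left hs2 t)
    _ ≤ (2 * M * Λ) ^ (t + 1) * s ^ t := by
        refine Nat.mul_le_mul_right _ ?_
        rw [mul_pow, mul_pow]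
        refine Nat.mul_le_mul (Nat.mul_le_mul_right _ ?_) ?_
        · exact Nat.pow_le_pow_right (by norm_num) (by omega)
        · calc Λ = Λ ^ 1 := (pow_one _).symm
            _ ≤ Λ ^ (t + 1) := Nat.pow_le_pow_right hΛ1 (by omega)

end Pool.Agent.H701.TJ
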