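import Pool.Agent.H701.TJ.Var

set_option autoImplicit false

/-!
# Adaptive cell sampling for queries on a grid
-/

namespace Pool.Agent.H701.TJ

open Finset

/-- the contents of the first `l` cells which are read on the query `d` -/
def tr {𝒳 𝒴 Q : Type} {s w : ℕ} (J : 𝒳 → 𝒴 → Fin s → Fin (2 ^ w))
    (addr : Q → 𝒳 → List (Fin (2 ^ w)) → Fin s) (X : 𝒳) (Y : 𝒴) (d : Q) :
    ℕ → List (Fin (2 ^ w))
  | 0 => []
  | l + 1 => tr J addr X Y d l ++ [J X Y (addr d X (tr J addr X Y d l))]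

theorem tr_length {𝒳 𝒴 Q : Type} {s w : ℕ} (J : 𝒳 → 𝒴 → Fin s → Fin (2 ^ w))
    (addr : Q → 𝒳 → List (Fin (2 ^ w)) → Fin s) (X : 𝒳) (Y : 𝒴) (d : Q) (l : ℕ) :
    (tr J addr X Y d l).length = l := by
  induction l with
  | zero => rfl
  | succ l ih => rw [tr, List.length_append, ih]; rfl

/-- the degrees are at most `a` -/
def Deg {k : ℕ} (D : Finset (Fin k × Fin k)) (a : ℝ) : Prop :=
  (∀ i, ((D.filter fun d => d.1 = i).card : ℝ) ≤ a) ∧
    (∀ j, ((D.filter fun d => d.2 = j).card : ℝ) ≤ a)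

theorem Deg.card_le {k : ℕ} {D : Finset (Fin k × Fin k)} {a : ℝ} (h : Deg D a) :
    (D.card : ℝ) ≤ k * a := by
  have h1 : D.card = ∑ i : Fin k, (D.filter fun d => d.1 = i).card :=
    card_eq_sum_card_fiberwise fun d _ => mem_univ _
  rw [h1]
  push_cast
  calc ∑ i : Fin k, ((D.filter fun d => d.1 = i).card : ℝ) ≤ ∑ _i : Fin k, a :=
        sum_le_sum fun i _ => h.1 i
    _ = k * a := by rw [sum_const, card_univ, Fintype.card_fin, nsmul_eq_mul]

/-- `(1 + 1 / t) ^ l ≤ 3` for `l ≤ t` -/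
theorem pow_le_three {t l : ℕ} (ht : 1 ≤ t) (hl : l ≤ t) : (1 + 1 / (t : ℝ)) ^ l ≤ 3 := by
  have ht0 : (0 : ℝ) < t := by exact_mod_cast ht
  have h1 : (1 : ℝ) ≤ 1 + 1 / t := by
    have : (0 : ℝ) ≤ 1 / t := by positivity
    linarith
  calc (1 + 1 / (t : ℝ)) ^ l ≤ (1 + 1 / (t : ℝ)) ^ t := pow_le_pow_right₀ h1 hl
    _ ≤ (Real.exp (1 / t)) ^ t := by
        refine pow_le_pow_left₀ (by linarith) ?_ t
        have := Real.add_one_le_exp (1 / (t : ℝ))
        linarith
    _ = Real.exp 1 := by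
        rw [← Real.exp_nat_mul]
        congr 1
        field_simp
    _ ≤ 3 := by
        have := Real.exp_one_lt_d9
        linarith

theorem step' {k s : ℕ} (a : ℝ) (g h n₁ L : ℕ) (ε T : ℝ) (hg : 1 ≤ g) (hh : 1 ≤ h)
    (hk : k * a ≤ g * n₁ * h) (hs : s ≤ g * L) (ha : 0 < a) (hε : 0 < ε) (hε1 : ε ≤ 1)
    (hT : (1 + ε) * (a / g) ≤ T) (D : Finset (Fin k × Fin k)) (c : Fin k × Fin k → Fin s) :
    ∃ (sel : (Fin n₁ ⊕ Fin L → Fin g) → Finset (Fin k × Fin k))
      (grp : Fin k × Fin k → Fin n₁ ⊕ Fin L),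
      (∀ θ, ∀ d ∈ sel θ, ∀ d' ∈ sel θ, grp d = grp d' → c d = c d') ∧
      (∀ θ, sel θ ⊆ D) ∧
      (Deg D a → (∀ θ, Deg (sel θ) T) ∧ ∀ φ : Fin k × Fin k → ℝ, (∀ d, φ d ≤ 1) →
        ∃ θ, (∑ d ∈ D, φ d) / g - 4 * k * h / ε ^ 2 ≤ ∑ d ∈ sel θ, φ d) := by
  by_cases hD : Deg D a
  · have hc : D.card ≤ g * n₁ * h := by
      have h1 := hD.card_le.trans hk
      exact_mod_cast h1
    obtain ⟨sel, grp, h1, h2, h3, h4, h5⟩ :=
      step D c a g h n₁ L ε T hg hh hc hs ha hD.1 hD.2 hε hε1 hT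
    exact ⟨sel, grp, h2, h1, fun _ => ⟨fun θ => ⟨h3 θ, h4 θ⟩, h5⟩⟩
  · have h1 : Nonempty (Fin k × Fin k → Fin n₁ ⊕ Fin L) := by
      by_cases hk0 : k = 0
      · subst hk0
        exact ⟨fun d => d.1.elim0⟩
      · have hk1 : 1 ≤ k := by omega
        have hk2 : (0 : ℝ) < k * a := mul_pos (by exact_mod_cast hk1) ha
        have h2 : 0 < n₁ := by
          by_contra h3
          have h4 : n₁ = 0 := by omega
          rw [h4] at hk
          simp at hk
          linarith
        exact ⟨fun _ => Sum.inl ⟨0, h2⟩⟩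
    obtain ⟨grp⟩ := h1
    exact ⟨fun _ => ∅, grp, fun θ d hd => absurd hd (notMem_empty _), fun θ => empty_subset _,
      fun h => absurd h hD⟩

/-- **Adaptive cell sampling.** -/
theorem sim {𝒳 𝒴 : Type} {k s w : ℕ} (J : 𝒳 → 𝒴 → Fin s → Fin (2 ^ w))
    (addr : Fin k × Fin k → 𝒳 → List (Fin (2 ^ w)) → Fin s) (t K L Gm : ℕ) (g : ℕ → ℕ)
    (ht : 1 ≤ t) (hk : 1 ≤ k) (hK : 1 ≤ K) (hg : ∀ l < t, 1 ≤ g l) (hGm : ∀ l < t, g l ≤ Gm)
    (hs : ∀ l < t, s ≤ g l * L) (hKP : K * ∏ i ∈ range t, g i ≤ k) :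
    ∀ l ≤ t, ∃ (Adv : Type) (_ : Fintype Adv) (D : Adv → 𝒳 → Finset (Fin k × Fin k))
      (H : Adv → 𝒳 → Fin k × Fin k → List (Fin (2 ^ w))),
      Fintype.card Adv ≤ ((Gm * 2 ^ w) ^ (k * K + L)) ^ l ∧
      ∀ X Y (φ : Fin k × Fin k → ℝ), (∀ d, φ d ≤ 1) → ∃ a : Adv,
        (∀ d ∈ D a X, H a X d = tr J addr X Y d l) ∧
        Deg (D a X) (k * (1 + 1 / (t : ℝ)) ^ l / ((∏ i ∈ range l, g i : ℕ) : ℝ)) ∧
        (∑ d, φ d) / ((∏ i ∈ range l, g i : ℕ) : ℝ) -
          l * (24 * (t : ℝ) ^ 2 * (k : ℝ) ^ 2 / (K * ((∏ i ∈ range l, g i : ℕ) : ℝ))) ≤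
          ∑ d ∈ D a X, φ d := by
  intro l
  have ht0 : (0 : ℝ) < t := by exact_mod_cast ht
  have hk0 : (0 : ℝ) < k := by exact_mod_cast hk
  have hK0 : (0 : ℝ) < K := by exact_mod_cast hK
  induction l with
  | zero =>
    intro _
    refine ⟨Unit, inferInstance, fun _ _ => univ, fun _ _ _ => [], ?_, ?_⟩
    · simp
    · intro X Y φ _
      refine ⟨(), fun d _ => rfl, ?_, ?_⟩
      · have h1 : ∀ i : Fin k, ((univ : Finset (Fin k × Fin k)).filter fun d => d.1 = i).card
            ≤ k := by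
          intro i
          refine (card_le_card_of_injOn (t := (univ : Finset (Fin k))) (fun d => d.2)
            (fun d _ => mem_coe.2 (mem_univ _)) ?_).trans (by simp)
          intro d hd d' hd' he
          have h1 := (mem_filter.1 (mem_coe.1 hd)).2
          have h2 := (mem_filter.1 (mem_coe.1 hd')).2
          exact Prod.ext (h1.trans h2.symm) he
        have h2 : ∀ i : Fin k, ((univ : Finset (Fin k × Fin k)).filter fun d => d.2 = i).card
            ≤ k := by
          intro i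
          refine (card_le_card_of_injOn (t := (univ : Finset (Fin k))) (fun d => d.1)
            (fun d _ => mem_coe.2 (mem_univ _)) ?_).trans (by simp)
          intro d hd d' hd' he
          have h1 := (mem_filter.1 (mem_coe.1 hd)).2
          have h2 := (mem_filter.1 (mem_coe.1 hd')).2
          exact Prod.ext he (h1.trans h2.symm)
        simp only [pow_zero, mul_one, range_zero, prod_empty, Nat.cast_one, div_one]
        exact ⟨fun i => by exact_mod_cast h1 i, fun i => by exact_mod_cast h2 i⟩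
      · simp
  | succ l ih =>
    intro hl
    obtain ⟨Adv, iAdv, D, H, hcard, hAdv⟩ := ih (by omega)
    obtain ⟨P, hP⟩ : ∃ P, P = ∏ i ∈ range l, g i := ⟨_, rfl⟩
    have hP1 : 1 ≤ P := by
      rw [hP]
      exact Nat.one_le_iff_ne_zero.2 (prod_ne_zero_iff.2 fun i hi => by
        have := hg i (lt_of_lt_of_le (mem_range.1 hi) (by omega))
        omega)
    have hPs : ∏ i ∈ range (l + 1), g i = P * g l := by rw [prod_range_succ, hP]
    have hPt : P * g l ≤ ∏ i ∈ range t, g i := by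
      rw [← hPs]
      refine Nat.le_of_dvd ?_ (prod_dvd_prod_of_subset _ _ _ (range_subset_range.2 hl))
      exact Nat.pos_of_ne_zero (prod_ne_zero_iff.2 fun i hi => by
        have := hg i (mem_range.1 hi)
        omega)
    have hgl := hg l (by omega)
    have hgl0 : (0 : ℝ) < g l := by exact_mod_cast hgl
    have hP0 : (0 : ℝ) < P := by exact_mod_cast hP1
    obtain ⟨A, hA⟩ : ∃ A : ℝ, A = k * (1 + 1 / (t : ℝ)) ^ l / P := ⟨_, rfl⟩
    rw [hPs]
    rw [← hP, ← hA] at hAdv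
    have hone : (1 : ℝ) ≤ (1 + 1 / (t : ℝ)) ^ l := by
      refine one_le_pow₀ ?_
      have : (0 : ℝ) ≤ 1 / t := by positivity
      linarith
    have hA0 : 0 < A := by
      rw [hA]
      positivity
    have hAk : k / P ≤ A := by
      rw [hA]
      refine div_le_div_of_nonneg_right ?_ hP0.le
      nlinarith
    have hA3 : A ≤ 3 * k / P := by
      rw [hA]
      refine div_le_div_of_nonneg_right ?_ hP0.le
      have := pow_le_three (t := t) (l := l) ht (by omega)
      nlinarith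
    have hKk : (K : ℝ) * (P * g l) ≤ k := by
      have : K * (P * g l) ≤ k := (Nat.mul_le_mul_left K hPt).trans hKP
      exact_mod_cast this
    have hratio : 1 ≤ A / (g l * K) := by
      rw [one_le_div (by positivity)]
      refine le_trans ?_ hAk
      rw [le_div_iff₀ hP0]
      nlinarith
    obtain ⟨h, hh⟩ : ∃ h : ℕ, h = ⌈A / (g l * K)⌉₊ := ⟨_, rfl⟩
    have hh1 : A / (g l * K) ≤ h := by
      rw [hh]
      exact Nat.le_ceil _
    have hh2 : (h : ℝ) ≤ 2 * (A / (g l * K)) := by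
      have : (h : ℝ) < A / (g l * K) + 1 := by
        rw [hh]
        exact Nat.ceil_lt_add_one (by positivity)
      linarith
    have hh3 : 1 ≤ h := by
      have : (1 : ℝ) ≤ h := hratio.trans hh1
      exact_mod_cast this
    have hkA : (k : ℝ) * A ≤ g l * (k * K : ℕ) * h := by
      rw [div_le_iff₀ (by positivity)] at hh1
      push_cast
      nlinarith
    choose sel grp hsel1 hsel2 hsel3 using
      step' (k := k) (s := s) A (g l) h (k * K) L (1 / (t : ℝ)) ((1 + 1 / (t : ℝ)) * (A / g l))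
        hgl hh3 hkA (hs l (by omega)) hA0 (by positivity)
        (by rw [div_le_one ht0]; exact_mod_cast ht) le_rfl
    obtain ⟨c, hc⟩ : ∃ c : Adv → 𝒳 → Fin k × Fin k → Fin s, c = fun a X d =>
      addr d X (H a X d) := ⟨_, rfl⟩
    refine ⟨Adv × ((Fin (k * K) ⊕ Fin L → Fin (g l)) × (Fin (k * K) ⊕ Fin L → Fin (2 ^ w))),
      inferInstance, fun b X => sel (D b.1 X) (c b.1 X) b.2.1,
      fun b X d => H b.1 X d ++ [b.2.2 (grp (D b.1 X) (c b.1 X) d)], ?_, ?_⟩
    · rw [Fintype.card_prod, Fintype.card_prod, Fintype.card_fun, Fintype.card_fun,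
        Fintype.card_sum, Fintype.card_fin, Fintype.card_fin, Fintype.card_fin, Fintype.card_fin,
        ← mul_pow, pow_succ]
      refine Nat.mul_le_mul hcard (Nat.pow_le_pow_left ?_ _)
      exact Nat.mul_le_mul_right _ (hGm l (by omega))
    · intro X Y φ hφ
      obtain ⟨a, ha1, ha2, ha3⟩ := hAdv X Y φ hφ
      obtain ⟨hd, hθ⟩ := hsel3 (D a X) (c a X) ha2
      obtain ⟨θ, hθ⟩ := hθ φ hφ
      classical
      obtain ⟨v, hv⟩ : ∃ v : Fin (k * K) ⊕ Fin L → Fin (2 ^ w), v = fun γ =>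
        if h : ∃ d ∈ sel (D a X) (c a X) θ, grp (D a X) (c a X) d = γ then
          J X Y (c a X h.choose) else ⟨0, Nat.two_pow_pos w⟩ := ⟨_, rfl⟩
      refine ⟨(a, θ, v), ?_, ?_, ?_⟩
      · intro d hd
        have h1 : ∃ d' ∈ sel (D a X) (c a X) θ, grp (D a X) (c a X) d' =
            grp (D a X) (c a X) d := ⟨d, hd, rfl⟩
        have h2 : c a X h1.choose = c a X d :=
          hsel1 _ _ θ _ h1.choose_spec.1 d hd h1.choose_spec.2
        have h3 : v (grp (D a X) (c a X) d) = J X Y (c a X d) := by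
          rw [hv]
          simp only
          rw [dif_pos h1, h2]
        have h4 := ha1 d (hsel2 _ _ θ hd)
        show H a X d ++ [v (grp (D a X) (c a X) d)] = tr J addr X Y d (l + 1)
        rw [h3, tr, ← h4, hc]
      · have h1 := hd θ
        have h2 : (1 + 1 / (t : ℝ)) * (A / g l) =
            k * (1 + 1 / (t : ℝ)) ^ (l + 1) / ((P * g l : ℕ) : ℝ) := by
          rw [hA]
          push_cast
          rw [pow_succ, div_div]
          ring
        rw [← h2]
        exact h1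
      · refine le_trans ?_ hθ
        have h1 : (∑ d, φ d) / P / g l - l * (24 * (t : ℝ) ^ 2 * (k : ℝ) ^ 2 / (K * P)) / g l ≤
            (∑ d ∈ D a X, φ d) / g l := by
          rw [← sub_div]
          exact div_le_div_of_nonneg_right ha3 hgl0.le
        have h2 : 4 * (k : ℝ) * h / (1 / (t : ℝ)) ^ 2 ≤
            24 * (t : ℝ) ^ 2 * (k : ℝ) ^ 2 / (K * (P * g l)) := by
          have e1 : 4 * (k : ℝ) * h / (1 / (t : ℝ)) ^ 2 = 4 * k * t ^ 2 * h := by
            field_simp
          rw [e1]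
          have e2 : (h : ℝ) ≤ 2 * (3 * k / P / (g l * K)) := by
            refine hh2.trans ?_
            refine mul_le_mul_of_nonneg_left ?_ (by norm_num)
            exact div_le_div_of_nonneg_right hA3 (by positivity)
          calc 4 * (k : ℝ) * t ^ 2 * h ≤ 4 * k * t ^ 2 * (2 * (3 * k / P / (g l * K))) :=
                mul_le_mul_of_nonneg_left e2 (by positivity)
            _ = _ := by
                field_simp
                ring
        have h3 : (∑ d, φ d) / ((P * g l : ℕ) : ℝ) -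
            ((l + 1 : ℕ) : ℝ) * (24 * (t : ℝ) ^ 2 * (k : ℝ) ^ 2 / (K * ((P * g l : ℕ) : ℝ))) =
            (∑ d, φ d) / P / g l - l * (24 * (t : ℝ) ^ 2 * (k : ℝ) ^ 2 / (K * P)) / g l -
            24 * (t : ℝ) ^ 2 * (k : ℝ) ^ 2 / (K * (P * g l)) := by
          push_cast
          field_simp
          ring
        rw [h3]
        linarith

end Pool.Agent.H701.TJ
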