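import Pool.Agent.H701.TJ.Bin

set_option autoImplicit false

/-!
# One level of the cell sampling
-/

namespace Pool.Agent.H701.TJ

open Finset

section av

variable {Γ : Type} [Fintype Γ] [DecidableEq Γ] {g : ℕ}

/-- the average over all functions from `Γ` to `Fin g` -/
noncomputable def av (f : (Γ → Fin g) → ℝ) : ℝ := (∑ θ, f θ) / (g : ℝ) ^ Fintype.card Γ

theorem av_sum {ι : Type} (s : Finset ι) (f : ι → (Γ → Fin g) → ℝ) :
    av (fun θ => ∑ i ∈ s, f i θ) = ∑ i ∈ s, av (f i) := by
  unfold av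
  rw [sum_comm, sum_div]

theorem av_add (f f' : (Γ → Fin g) → ℝ) : av (fun θ => f θ + f' θ) = av f + av f' := by
  unfold av
  rw [sum_add_distrib, add_div]

theorem av_mul (c : ℝ) (f : (Γ → Fin g) → ℝ) : av (fun θ => c * f θ) = c * av f := by
  unfold av
  rw [← mul_sum, mul_div_assoc]

theorem av_const (hg : 1 ≤ g) (c : ℝ) : av (fun _ : Γ → Fin g => c) = c := by
  unfold av
  rw [sum_const, card_univ, Fintype.card_fun, Fintype.card_fin, nsmul_eq_mul]
  have : (0 : ℝ) < (g : ℝ) ^ Fintype.card Γ := pow_pos (by exact_mod_cast hg) _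
  push_cast
  field_simp

theorem av_mono {f f' : (Γ → Fin g) → ℝ} (h : ∀ θ, f θ ≤ f' θ) : av f ≤ av f' := by
  unfold av
  exact div_le_div_of_nonneg_right (sum_le_sum fun θ _ => h θ) (pow_nonneg (Nat.cast_nonneg g) _)

theorem av_exists (hg : 1 ≤ g) (f : (Γ → Fin g) → ℝ) : ∃ θ, av f ≤ f θ := by
  by_contra hno
  push Not at hno
  have h1 : (0 : ℝ) < (g : ℝ) ^ Fintype.card Γ := pow_pos (by exact_mod_cast hg) _
  have : Nonempty (Γ → Fin g) := ⟨fun _ => ⟨0, hg⟩⟩
  have h2 : ∑ θ, f θ < ∑ _θ : Γ → Fin g, av f :=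
    sum_lt_sum_of_nonempty univ_nonempty fun θ _ => hno θ
  rw [sum_const, card_univ, Fintype.card_fun, Fintype.card_fin, nsmul_eq_mul] at h2
  unfold av at h2
  push_cast at h2
  rw [mul_div_cancel₀ _ h1.ne'] at h2
  exact lt_irrefl _ h2

theorem av_prod (f : Γ → Fin g → ℝ) :
    av (fun θ => ∏ γ, f γ (θ γ)) = ∏ γ, ((∑ x, f γ x) / g) := by
  have h := (Finset.prod_univ_sum (fun _ : Γ => (univ : Finset (Fin g))) f).symm
  rw [Fintype.piFinset_univ] at h
  unfold av
  rw [h, prod_div_distrib, prod_const, card_univ]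

theorem av_one (hg : 1 ≤ g) (γ : Γ) (x : Fin g) :
    av (fun θ : Γ → Fin g => if θ γ = x then (1 : ℝ) else 0) = 1 / g := by
  have hg0 : (0 : ℝ) < g := by exact_mod_cast hg
  have h1 : (fun θ : Γ → Fin g => if θ γ = x then (1 : ℝ) else 0) =
      fun θ => ∏ γ', (if γ' = γ then (if θ γ' = x then (1 : ℝ) else 0) else 1) := by
    funext θ
    rw [prod_ite_eq' univ γ]
    simp
  rw [h1, av_prod fun γ' y => if γ' = γ then (if y = x then (1 : ℝ) else 0) else 1]
  rw [prod_eq_single γ]
  · simp
  · intro γ' _ hne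
    simp [hne, hg0.ne']
  · intro h
    exact absurd (mem_univ _) h

theorem av_two (hg : 1 ≤ g) (γ γ' : Γ) (hne : γ ≠ γ') (x x' : Fin g) :
    av (fun θ : Γ → Fin g => (if θ γ = x then (1 : ℝ) else 0) * (if θ γ' = x' then 1 else 0)) =
      1 / (g : ℝ) ^ 2 := by
  have hg0 : (0 : ℝ) < g := by exact_mod_cast hg
  have h1 : (fun θ : Γ → Fin g => (if θ γ = x then (1 : ℝ) else 0) * (if θ γ' = x' then 1 else 0)) =
      fun θ => ∏ δ, ((if δ = γ then (if θ δ = x then (1 : ℝ) else 0) else 1) *
        (if δ = γ' then (if θ δ = x' then (1 : ℝ) else 0) else 1)) := by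
    funext θ
    rw [prod_mul_distrib, prod_ite_eq' univ γ, prod_ite_eq' univ γ']
    simp
  rw [h1, av_prod fun δ y => (if δ = γ then (if y = x then (1 : ℝ) else 0) else 1) *
        (if δ = γ' then (if y = x' then (1 : ℝ) else 0) else 1)]
  have h2 : ∀ δ : Γ, (∑ y : Fin g, (if δ = γ then (if y = x then (1 : ℝ) else 0) else 1) *
        (if δ = γ' then (if y = x' then (1 : ℝ) else 0) else 1)) / g =
      (if δ = γ then 1 / (g : ℝ) else 1) * (if δ = γ' then 1 / (g : ℝ) else 1) := by
    intro δ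
    by_cases e1 : δ = γ
    · have e2 : δ ≠ γ' := fun h => hne (e1.symm.trans h)
      simp [e1, hne]
    · by_cases e2 : δ = γ'
      · have e3 : ¬ γ' = γ := fun h => hne h.symm
        simp [e2, e3]
      · simp [e1, e2, hg0.ne']
  rw [prod_congr rfl fun δ _ => h2 δ, prod_mul_distrib, prod_ite_eq' univ γ, prod_ite_eq' univ γ']
  simp
  field_simp

theorem av_pair (hg : 1 ≤ g) (b b' : Γ × Fin g) :
    av (fun θ : Γ → Fin g => (if θ b.1 = b.2 then (1 : ℝ) else 0) *
      (if θ b'.1 = b'.2 then 1 else 0)) ≤ 1 / (g : ℝ) ^ 2 + (if b' = b then 1 / (g : ℝ) else 0) := by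
  have hg0 : (0 : ℝ) < g := by exact_mod_cast hg
  by_cases h1 : b.1 = b'.1
  · by_cases h2 : b' = b
    · rw [if_pos h2, h2]
      have h3 : (fun θ : Γ → Fin g => (if θ b.1 = b.2 then (1 : ℝ) else 0) *
          (if θ b.1 = b.2 then 1 else 0)) = fun θ => if θ b.1 = b.2 then (1 : ℝ) else 0 := by
        funext θ
        split <;> simp
      rw [h3, av_one hg]
      have : (0 : ℝ) ≤ 1 / (g : ℝ) ^ 2 := by positivity
      linarith
    · rw [if_neg h2]
      have h3 : (fun θ : Γ → Fin g => (if θ b.1 = b.2 then (1 : ℝ) else 0) *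
          (if θ b'.1 = b'.2 then 1 else 0)) = fun _ => 0 := by
        funext θ
        rw [← h1]
        by_cases h4 : θ b.1 = b.2
        · have h5 : ¬ θ b.1 = b'.2 := by
            intro h6
            exact h2 (Prod.ext h1.symm (h6.symm.trans h4))
          rw [if_neg h5, mul_zero]
        · rw [if_neg h4, zero_mul]
      rw [h3, av_const hg]
      positivity
  · rw [av_two hg b.1 b'.1 h1]
    have : (0 : ℝ) ≤ (if b' = b then 1 / (g : ℝ) else 0) := by
      split <;> positivity
    linarith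

/-- the number of the selected elements -/
noncomputable def num {Q : Type} (A : Finset Q) (β : Q → Γ × Fin g) (θ : Γ → Fin g) : ℝ :=
  ∑ d ∈ A, (if θ (β d).1 = (β d).2 then (1 : ℝ) else 0)

theorem av_num {Q : Type} (hg : 1 ≤ g) (A : Finset Q) (β : Q → Γ × Fin g) :
    av (num A β) = A.card / g := by
  unfold num
  rw [av_sum]
  rw [sum_congr rfl fun d _ => av_one hg (β d).1 (β d).2]
  rw [sum_const, nsmul_eq_mul, mul_one_div]

theorem av_num_sq {Q : Type} [DecidableEq Q] (hg : 1 ≤ g) (A : Finset Q) (β : Q → Γ × Fin g)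
    (h : ℕ) (hA : ∀ b, (A.filter fun d => β d = b).card ≤ h) :
    av (fun θ => (num A β θ - A.card / g) ^ 2) ≤ h * (A.card / g) := by
  have hg0 : (0 : ℝ) < g := by exact_mod_cast hg
  have h1 : av (fun θ => num A β θ ^ 2) ≤ (A.card / g) ^ 2 + h * (A.card / g) := by
    have e1 : (fun θ => num A β θ ^ 2) = fun θ => ∑ d ∈ A, ∑ d' ∈ A,
        ((if θ (β d).1 = (β d).2 then (1 : ℝ) else 0) *
          (if θ (β d').1 = (β d').2 then 1 else 0)) := by
      funext θ
      unfold num
      rw [sq, sum_mul_sum]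
    rw [e1, av_sum]
    have e2 : ∀ d ∈ A, av (fun θ => ∑ d' ∈ A, ((if θ (β d).1 = (β d).2 then (1 : ℝ) else 0) *
          (if θ (β d').1 = (β d').2 then 1 else 0))) ≤ A.card / (g : ℝ) ^ 2 + h * (1 / g) := by
      intro d _
      rw [av_sum]
      refine (sum_le_sum fun d' _ => av_pair hg (β d) (β d')).trans ?_
      rw [sum_add_distrib, sum_const, nsmul_eq_mul, mul_one_div]
      refine add_le_add_right ?_ _
      rw [← sum_filter, sum_const, nsmul_eq_mul]
      refine mul_le_mul_of_nonneg_right ?_ (by positivity)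
      exact_mod_cast hA (β d)
    refine (sum_le_sum e2).trans (le_of_eq ?_)
    rw [sum_const, nsmul_eq_mul]
    field_simp
  have h2 : av (fun θ => (num A β θ - A.card / g) ^ 2) =
      av (fun θ => num A β θ ^ 2) - (A.card / g) ^ 2 := by
    have e1 : (fun θ => (num A β θ - A.card / g) ^ 2) = fun θ =>
        (num A β θ ^ 2 + (-(2 * (A.card / g : ℝ))) * num A β θ) + (A.card / g : ℝ) ^ 2 := by
      funext θ
      ring
    rw [e1, av_add, av_add, av_const hg, av_mul, av_num hg]
    ring
  rw [h2]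
  linarith

end av

/-- **One level.** -/
theorem step {k s : ℕ} (D : Finset (Fin k × Fin k)) (c : Fin k × Fin k → Fin s) (a : ℝ)
    (g h n₁ L : ℕ) (ε T : ℝ) (hg : 1 ≤ g) (hh : 1 ≤ h) (hD : D.card ≤ g * n₁ * h)
    (hs : s ≤ g * L) (ha : 0 < a) (hrow : ∀ i, ((D.filter fun d => d.1 = i).card : ℝ) ≤ a)
    (hcol : ∀ j, ((D.filter fun d => d.2 = j).card : ℝ) ≤ a) (hε : 0 < ε) (hε1 : ε ≤ 1)
    (hT : (1 + ε) * (a / g) ≤ T) :
    ∃ (sel : (Fin n₁ ⊕ Fin L → Fin g) → Finset (Fin k × Fin k))
      (grp : Fin k × Fin k → Fin n₁ ⊕ Fin L),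
      (∀ θ, sel θ ⊆ D) ∧ (∀ θ, ∀ d ∈ sel θ, ∀ d' ∈ sel θ, grp d = grp d' → c d = c d') ∧
      (∀ θ i, (((sel θ).filter fun d => d.1 = i).card : ℝ) ≤ T) ∧
      (∀ θ j, (((sel θ).filter fun d => d.2 = j).card : ℝ) ≤ T) ∧
      ∀ φ : Fin k × Fin k → ℝ, (∀ d, φ d ≤ 1) →
        ∃ θ, (∑ d ∈ D, φ d) / g - 4 * k * h / ε ^ 2 ≤ ∑ d ∈ sel θ, φ d := by
  classical
  have hg0 : (0 : ℝ) < g := by exact_mod_cast hg
  obtain ⟨β, hβ1, hβ2, hβ3⟩ := binning D c h g n₁ L hh hD hs
  obtain ⟨Sel, hSel⟩ : ∃ Sel : (Fin n₁ ⊕ Fin L → Fin g) → Finset (Fin k × Fin k),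
    Sel = fun θ => D.filter fun d => θ (β d).1 = (β d).2 := ⟨_, rfl⟩
  have hm1 : 0 < a / g := div_pos ha hg0
  have hT0 : 0 ≤ T := by nlinarith
  obtain ⟨sel, hsel⟩ : ∃ sel : (Fin n₁ ⊕ Fin L → Fin g) → Finset (Fin k × Fin k),
    sel = fun θ => (Sel θ).filter fun d => (((Sel θ).filter fun d' => d'.1 = d.1).card : ℝ) ≤ T ∧
      (((Sel θ).filter fun d' => d'.2 = d.2).card : ℝ) ≤ T := ⟨_, rfl⟩
  have hss : ∀ θ, sel θ ⊆ Sel θ := fun θ => by rw [hsel]; exact filter_subset _ _
  have hSD : ∀ θ, Sel θ ⊆ D := fun θ => by rw [hSel]; exact filter_subset _ _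
  refine ⟨sel, fun d => (β d).1, fun θ => (hss θ).trans (hSD θ), ?_, ?_, ?_, ?_⟩
  · intro θ d hd d' hd' he
    have h1 : θ (β d).1 = (β d).2 := by
      have := hss θ hd
      rw [hSel] at this
      exact (mem_filter.1 this).2
    have h2 : θ (β d').1 = (β d').2 := by
      have := hss θ hd'
      rw [hSel] at this
      exact (mem_filter.1 this).2
    refine hβ1 d (hSD θ (hss θ hd)) d' (hSD θ (hss θ hd')) (Prod.ext he ?_)
    rw [← h1, ← h2]
    exact congrArg θ he
  · intro θ i
    by_cases hne : ((sel θ).filter fun d => d.1 = i).Nonempty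
    · obtain ⟨d, hd⟩ := hne
      obtain ⟨h1, h2⟩ := mem_filter.1 hd
      have h3 := h1
      rw [hsel] at h3
      have h4 := (mem_filter.1 h3).2.1
      rw [h2] at h4
      refine le_trans ?_ h4
      exact_mod_cast card_le_card (filter_subset_filter _ (hss θ))
    · rw [not_nonempty_iff_eq_empty] at hne
      rw [hne]
      simpa using hT0
  · intro θ i
    by_cases hne : ((sel θ).filter fun d => d.2 = i).Nonempty
    · obtain ⟨d, hd⟩ := hne
      obtain ⟨h1, h2⟩ := mem_filter.1 hd
      have h3 := h1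
      rw [hsel] at h3
      have h4 := (mem_filter.1 h3).2.2
      rw [h2] at h4
      refine le_trans ?_ h4
      exact_mod_cast card_le_card (filter_subset_filter _ (hss θ))
    · rw [not_nonempty_iff_eq_empty] at hne
      rw [hne]
      simpa using hT0
  · intro φ hφ
    -- rows and columns
    obtain ⟨X, hX⟩ : ∃ X : Fin k → (Fin n₁ ⊕ Fin L → Fin g) → ℝ,
      X = fun i => num (D.filter fun d => d.1 = i) β := ⟨_, rfl⟩
    obtain ⟨Y, hY⟩ : ∃ Y : Fin k → (Fin n₁ ⊕ Fin L → Fin g) → ℝ,
      Y = fun i => num (D.filter fun d => d.2 = i) β := ⟨_, rfl⟩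
    have hX' : ∀ i θ, X i θ = (((Sel θ).filter fun d => d.1 = i).card : ℝ) := by
      intro i θ
      rw [hX, hSel]
      unfold num
      beta_reduce
      rw [sum_boole]
      congr 2
      ext d
      simp only [mem_filter]
      tauto
    have hY' : ∀ i θ, Y i θ = (((Sel θ).filter fun d => d.2 = i).card : ℝ) := by
      intro i θ
      rw [hY, hSel]
      unfold num
      beta_reduce
      rw [sum_boole]
      congr 2
      ext d
      simp only [mem_filter]
      tauto
    obtain ⟨K, hK⟩ : ∃ K : ℝ, K = 2 / (ε ^ 2 * (a / g)) := ⟨_, rfl⟩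
    have hK0 : 0 < K := by rw [hK]; positivity
    -- the number of removed queries in a line
    have hline : ∀ (x μ : ℝ), T < x → μ ≤ a / g → x ≤ K * (x - μ) ^ 2 := by
      intro x μ hx hμ
      have e1 : ε * (a / g) ≤ x - μ := by nlinarith
      have e2 : x ≤ (x - μ) * (2 / ε) := by
        rw [mul_div_assoc', le_div_iff₀ hε]
        have e3 : ε * (x - μ) ≤ 1 * (x - μ) :=
          mul_le_mul_of_nonneg_right hε1 (le_trans (by positivity) e1)
        nlinarith
      have e4 : 0 ≤ x - μ := le_trans (by positivity) e1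
      calc x ≤ (x - μ) * (2 / ε) := e2
        _ = (x - μ) * (2 / (ε ^ 2 * (a / g))) * (ε * (a / g)) := by field_simp
        _ ≤ (x - μ) * (2 / (ε ^ 2 * (a / g))) * (x - μ) :=
            mul_le_mul_of_nonneg_left e1 (mul_nonneg e4 (by positivity))
        _ = K * (x - μ) ^ 2 := by rw [hK]; ring
    have hpt : ∀ θ, ∑ d ∈ Sel θ, φ d - (∑ i, K * (X i θ - ((D.filter fun d => d.1 = i).card : ℝ) / g) ^ 2
        + ∑ i, K * (Y i θ - ((D.filter fun d => d.2 = i).card : ℝ) / g) ^ 2) ≤ ∑ d ∈ sel θ, φ d := by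
      intro θ
      have e1 : ∑ d ∈ Sel θ, φ d = ∑ d ∈ Sel θ \ sel θ, φ d + ∑ d ∈ sel θ, φ d :=
        (sum_sdiff (hss θ)).symm
      have e2 : ∑ d ∈ Sel θ \ sel θ, φ d ≤ ((Sel θ \ sel θ).card : ℝ) := by
        calc ∑ d ∈ Sel θ \ sel θ, φ d ≤ ∑ _d ∈ Sel θ \ sel θ, (1 : ℝ) :=
              sum_le_sum fun d _ => hφ d
          _ = _ := by simp
      have e3 : Sel θ \ sel θ ⊆
          ((univ.filter fun i => T < (((Sel θ).filter fun d => d.1 = i).card : ℝ)).biUnion
            fun i => (Sel θ).filter fun d => d.1 = i) ∪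
          ((univ.filter fun i => T < (((Sel θ).filter fun d => d.2 = i).card : ℝ)).biUnion
            fun i => (Sel θ).filter fun d => d.2 = i) := by
        intro d hd
        obtain ⟨h1, h2⟩ := mem_sdiff.1 hd
        rw [hsel] at h2
        rw [mem_union, mem_biUnion, mem_biUnion]
        by_cases h3 : T < (((Sel θ).filter fun d' => d'.1 = d.1).card : ℝ)
        · left
          exact ⟨d.1, mem_filter.2 ⟨mem_univ _, h3⟩, mem_filter.2 ⟨h1, rfl⟩⟩
        · right
          have h4 : T < (((Sel θ).filter fun d' => d'.2 = d.2).card : ℝ) := by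
            by_contra h5
            exact h2 (mem_filter.2 ⟨h1, not_lt.1 h3, not_lt.1 h5⟩)
          exact ⟨d.2, mem_filter.2 ⟨mem_univ _, h4⟩, mem_filter.2 ⟨h1, rfl⟩⟩
      have e4 : ((Sel θ \ sel θ).card : ℝ) ≤
          ∑ i ∈ univ.filter (fun i => T < (((Sel θ).filter fun d => d.1 = i).card : ℝ)), X i θ +
          ∑ i ∈ univ.filter (fun i => T < (((Sel θ).filter fun d => d.2 = i).card : ℝ)), Y i θ := by
        have h1 := (card_le_card e3).trans (card_union_le _ _)
        have h2 : (((univ.filter fun i => T < (((Sel θ).filter fun d => d.1 = i).card : ℝ)).biUnion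
            fun i => (Sel θ).filter fun d => d.1 = i).card : ℝ) ≤
            ∑ i ∈ univ.filter (fun i => T < (((Sel θ).filter fun d => d.1 = i).card : ℝ)),
              X i θ := by
          rw [sum_congr rfl fun i _ => hX' i θ]
          exact_mod_cast card_biUnion_le
        have h3 : (((univ.filter fun i => T < (((Sel θ).filter fun d => d.2 = i).card : ℝ)).biUnion
            fun i => (Sel θ).filter fun d => d.2 = i).card : ℝ) ≤
            ∑ i ∈ univ.filter (fun i => T < (((Sel θ).filter fun d => d.2 = i).card : ℝ)),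
              Y i θ := by
          rw [sum_congr rfl fun i _ => hY' i θ]
          exact_mod_cast card_biUnion_le
        have h4 := (Nat.cast_le (α := ℝ)).2 h1
        rw [Nat.cast_add] at h4
        linarith
      have e5 : ∑ i ∈ univ.filter (fun i => T < (((Sel θ).filter fun d => d.1 = i).card : ℝ)),
          X i θ ≤ ∑ i, K * (X i θ - ((D.filter fun d => d.1 = i).card : ℝ) / g) ^ 2 := by
        refine (sum_le_sum fun i hi => ?_).trans (sum_le_sum_of_subset_of_nonneg
          (filter_subset _ _) fun i _ _ => mul_nonneg hK0.le (sq_nonneg _))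
        refine hline _ _ ?_ (div_le_div_of_nonneg_right (hrow i) hg0.le)
        rw [hX']
        exact (mem_filter.1 hi).2
      have e6 : ∑ i ∈ univ.filter (fun i => T < (((Sel θ).filter fun d => d.2 = i).card : ℝ)),
          Y i θ ≤ ∑ i, K * (Y i θ - ((D.filter fun d => d.2 = i).card : ℝ) / g) ^ 2 := by
        refine (sum_le_sum fun i hi => ?_).trans (sum_le_sum_of_subset_of_nonneg
          (filter_subset _ _) fun i _ _ => mul_nonneg hK0.le (sq_nonneg _))
        refine hline _ _ ?_ (div_le_div_of_nonneg_right (hcol i) hg0.le)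
        rw [hY']
        exact (mem_filter.1 hi).2
      linarith
    obtain ⟨θ, hθ⟩ := av_exists hg fun θ => ∑ d ∈ sel θ, φ d
    refine ⟨θ, le_trans ?_ hθ⟩
    refine le_trans ?_ (av_mono hpt)
    have f1 : av (fun θ => ∑ d ∈ Sel θ, φ d) = (∑ d ∈ D, φ d) / g := by
      have e1 : (fun θ => ∑ d ∈ Sel θ, φ d) = fun θ => ∑ d ∈ D, φ d *
          (if θ (β d).1 = (β d).2 then (1 : ℝ) else 0) := by
        funext θ
        rw [hSel]
        simp only
        rw [sum_filter]
        refine sum_congr rfl fun d _ => ?_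
        split <;> simp
      rw [e1, av_sum, sum_div]
      refine sum_congr rfl fun d _ => ?_
      rw [av_mul, av_one hg, mul_one_div]
    have f2 : av (fun θ => ∑ i, K * (X i θ - ((D.filter fun d => d.1 = i).card : ℝ) / g) ^ 2) ≤
        2 * k * h / ε ^ 2 := by
      rw [av_sum]
      calc ∑ i, av (fun θ => K * (X i θ - ((D.filter fun d => d.1 = i).card : ℝ) / g) ^ 2)
          ≤ ∑ _i : Fin k, 2 * h / ε ^ 2 := by
            refine sum_le_sum fun i _ => ?_
            rw [av_mul]
            have e1 := av_num_sq hg (D.filter fun d => d.1 = i) β h (by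
              intro b
              rw [filter_filter]
              exact hβ2 i b)
            rw [hX]
            calc K * av (fun θ => (num (D.filter fun d => d.1 = i) β θ -
                  ((D.filter fun d => d.1 = i).card : ℝ) / g) ^ 2)
                ≤ K * (h * (((D.filter fun d => d.1 = i).card : ℝ) / g)) :=
                  mul_le_mul_of_nonneg_left e1 hK0.le
              _ ≤ K * (h * (a / g)) := by
                  refine mul_le_mul_of_nonneg_left (mul_le_mul_of_nonneg_left ?_
                    (Nat.cast_nonneg h)) hK0.le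
                  exact div_le_div_of_nonneg_right (hrow i) hg0.le
              _ = 2 * h / ε ^ 2 := by
                  rw [hK]
                  field_simp
        _ = 2 * k * h / ε ^ 2 := by
            rw [sum_const, card_univ, Fintype.card_fin, nsmul_eq_mul]
            ring
    have f3 : av (fun θ => ∑ i, K * (Y i θ - ((D.filter fun d => d.2 = i).card : ℝ) / g) ^ 2) ≤
        2 * k * h / ε ^ 2 := by
      rw [av_sum]
      calc ∑ i, av (fun θ => K * (Y i θ - ((D.filter fun d => d.2 = i).card : ℝ) / g) ^ 2)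
          ≤ ∑ _i : Fin k, 2 * h / ε ^ 2 := by
            refine sum_le_sum fun i _ => ?_
            rw [av_mul]
            have e1 := av_num_sq hg (D.filter fun d => d.2 = i) β h (by
              intro b
              rw [filter_filter]
              exact hβ3 i b)
            rw [hY]
            calc K * av (fun θ => (num (D.filter fun d => d.2 = i) β θ -
                  ((D.filter fun d => d.2 = i).card : ℝ) / g) ^ 2)
                ≤ K * (h * (((D.filter fun d => d.2 = i).card : ℝ) / g)) :=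
                  mul_le_mul_of_nonneg_left e1 hK0.le
              _ ≤ K * (h * (a / g)) := by
                  refine mul_le_mul_of_nonneg_left (mul_le_mul_of_nonneg_left ?_
                    (Nat.cast_nonneg h)) hK0.le
                  exact div_le_div_of_nonneg_right (hcol i) hg0.le
              _ = 2 * h / ε ^ 2 := by
                  rw [hK]
                  field_simp
        _ = 2 * k * h / ε ^ 2 := by
            rw [sum_const, card_univ, Fintype.card_fin, nsmul_eq_mul]
            ring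
    have f4 : av (fun θ => ∑ d ∈ Sel θ, φ d -
        (∑ i, K * (X i θ - ((D.filter fun d => d.1 = i).card : ℝ) / g) ^ 2
        + ∑ i, K * (Y i θ - ((D.filter fun d => d.2 = i).card : ℝ) / g) ^ 2)) =
        av (fun θ => ∑ d ∈ Sel θ, φ d) -
        (av (fun θ => ∑ i, K * (X i θ - ((D.filter fun d => d.1 = i).card : ℝ) / g) ^ 2) +
        av (fun θ => ∑ i, K * (Y i θ - ((D.filter fun d => d.2 = i).card : ℝ) / g) ^ 2)) := by
      unfold av
      rw [sum_sub_distrib, sum_add_distrib]
      ring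
    rw [f4, f1]
    have f5 : 4 * (k : ℝ) * h / ε ^ 2 = 2 * k * h / ε ^ 2 + 2 * k * h / ε ^ 2 := by ring
    linarith

end Pool.Agent.H701.TJ
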